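import Pool.Agent.Lib.MP_3a0263_al.Q.P_PG1
import Pool.Agent.Lib.MP_3a0263_al.Q.P_PG3
import Pool.Agent.Lib.MP_3a0263_al.Q.P_PG4
import Pool.Agent.Lib.MP_3a0263_al.Q.P_PG5
import Pool.Agent.Lib.MP_3a0263_al.R.Final

namespace Pool.Agent.Lib.PRC2

open Matrix Pool.Agent.Lib.MP_3a0263_al Pool.Agent.Lib.MP_3a0263_al.R Pool.Agent.Lib.MP_3a0263_al.Q

attribute [local instance 100] LieRing.ofAssociativeRing

universe u

namespace GLC

variable {k : Type u} [Field k] {n : Type} [Fintype n] [DecidableEq n]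

/-- the diagonal torus -/
def DT (k : Type u) [Field k] (n : Type) [Fintype n] [DecidableEq n] : Subgroup (GL n k) :=
  (dgHom (k := k) (n := n)).range

theorem lie_top [IsAlgClosed k] (x : Matrix n n k) : x ∈ lie (⊤ : Subgroup (GL n k)) := by
  have h := vanish_zero (n := n) (P := ⊥) (k := k) Ideal.isPrime_bot (fun f hf => by
    rw [Ideal.mem_bot.1 hf, map_zero])
  intro f hf
  have : f ∈ (⊥ : Ideal (MvPolynomial (n × n) k)) := h ▸ vanish_anti (fun _ _ => trivial) hf
  rw [Ideal.mem_bot.1 this, map_zero]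

theorem red_top [IsAlgClosed k] [Nonempty n] : IsReductive (⊤ : Subgroup (GL n k)) := by
  refine ⟨⟨fun _ _ => trivial, prime_of_irr PG1.irr_univ (Set.mem_univ 1)⟩, fun N _ _ hn hu => ?_⟩
  obtain ⟨r, hr⟩ := kolchin_span hu
  set J := Submodule.span k {x | ∃ u ∈ N, x = (u : Matrix n n k) - 1}
  have hJ : ∀ g : GL n k, ∀ a ∈ J, PG3.cj k n g a ∈ J := fun g a ha =>
    (Submodule.span_le (p := J.comap (PG3.cj k n g).toLinearMap)).2 (by
      rintro _ ⟨u, hu, rfl⟩
      refine Submodule.subset_span ⟨_, hn g trivial u hu, ?_⟩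
      change PG3.cj k n g _ = _
      rw [map_sub, map_one]
      rfl) ha
  have key : ∀ j : ℕ, J ^ j = ⊥ → J = ⊥ := by
    intro j
    induction j with
    | zero =>
      intro h
      rw [pow_zero] at h
      exact absurd ((Submodule.mem_bot k).1 (h ▸ Submodule.one_le.1 le_rfl)) one_ne_zero
    | succ j ih =>
      intro h
      by_cases h0 : J ^ j = ⊥
      · exact ih h0
      obtain ⟨e, he, e0⟩ := Submodule.exists_mem_ne_zero_of_ne_bot h0
      have h1 : ∀ x ∈ J, x * e = 0 := fun x hx =>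
        (Submodule.mem_bot k).1 (by rw [← h, pow_succ']; exact Submodule.mul_mem_mul hx he)
      refine (Submodule.eq_bot_iff _).2 fun x hx => Kol.prime e0 fun a => ?_
      have h2 := h1 _ (PG3.ad_mem hJ a hx)
      rwa [sub_mul, mul_assoc a, h1 x hx, mul_zero, zero_sub, neg_eq_zero] at h2
  refine (Subgroup.eq_bot_iff_forall _).2 fun u hu => Units.ext (sub_eq_zero.1 ?_)
  exact (Submodule.eq_bot_iff _).1 (key _ hr) _ (Submodule.subset_span ⟨u, hu, rfl⟩)

theorem closed_DT : IsZClosed (DT k n : Set (GL n k)) := by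
  have h2 := closed_reg (k := k) (n := n)
    (F := {φ | ∃ a b, a ≠ b ∧ φ = fun g : GL n k => (g : Matrix n n k) a b})
    (by rintro _ ⟨a, b, _, rfl⟩; exact reg_entry a b)
  have e : (DT k n : Set (GL n k)) = {g : GL n k | ∀ φ ∈ {φ | ∃ a b, a ≠ b ∧
      φ = fun g : GL n k => (g : Matrix n n k) a b}, φ g = 0} := by
    ext g
    refine ⟨?_, fun h3 => ?_⟩
    · rintro ⟨d, rfl⟩ _ ⟨a, b, hab, rfl⟩
      exact diagonal_apply_ne _ hab
    · obtain ⟨d, hd⟩ := PG4.ex_dg (g := g) fun i j hij => h3 _ ⟨i, j, hij, rfl⟩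
      exact ⟨d, hd.symm⟩
  rwa [e]

theorem le_idc_DT [Infinite k] : DT k n ≤ idc (DT k n) := by
  rintro _ ⟨d, rfl⟩
  show dg d ∈ idc (DT k n)
  induction d using Pi.mulSingle_induction with
  | one => rw [dg_one]; exact one_mem _
  | mul f g hf hg => rw [dg_mul]; exact mul_mem hf hg
  | mulSingle i s =>
    have e : dg (Pi.mulSingle i s) = coch (Pi.single i 1) s :=
      congrArg dg (funext fun j => by
        by_cases hj : j = i
        · subst hj; simp
        · simp [hj])
    rw [e]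
    refine subset_idc ?_ (irr_coch _) ⟨1, ?_⟩ ⟨s, rfl⟩
    · rintro _ ⟨t, rfl⟩
      exact ⟨_, rfl⟩
    · rw [coch, ← dg_one]
      exact congrArg dg (funext fun j => one_zpow _)

theorem max_DT [IsAlgClosed k] : IsMaxTorus ⊤ (DT k n) := by
  refine ⟨le_top, ⟨?_, ?_, ?_⟩, fun T' hT _ hT' => le_antisymm (fun t ht => ?_) hT⟩
  · have := conn_idc (closed_DT (k := k) (n := n))
    rwa [le_antisymm (idc_le _) le_idc_DT] at this
  · rintro _ ⟨d, rfl⟩ _ ⟨e, rfl⟩
    rw [← map_mul, ← map_mul, mul_comm]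
  · rintro _ ⟨d, rfl⟩
    exact ss_dg d
  · obtain ⟨d, rfl⟩ := PG4.diag_of_comm (a := t) fun d => by
      rw [← map_mul, ← map_mul, hT'.2.1 (dg d) (hT ⟨d, rfl⟩) _ ht]
    exact ⟨d, rfl⟩

/-- the parametrisation of the diagonal torus -/
def rho (k : Type u) [Field k] (n : Type) [Fintype n] [DecidableEq n] :
    (n → kˣ) →* DT k n := (dgHom (k := k) (n := n)).rangeRestrict

theorem rho_surj : Function.Surjective (rho k n) :=
  (dgHom (k := k) (n := n)).rangeRestrict_surjective

theorem ext_rho {χ χ' : DT k n →* kˣ} (h : ∀ d, χ (rho k n d) = χ' (rho k n d)) : χ = χ' :=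
  MonoidHom.ext fun t => by
    obtain ⟨d, rfl⟩ := rho_surj t
    exact h d

theorem exists_chi (i j : n) : ∃ χ : DT k n →* kˣ, ∀ d, χ (rho k n d) = d i / d j := by
  let ψ : (n → kˣ) →* kˣ := Pi.evalMonoidHom (fun _ => kˣ) i / Pi.evalMonoidHom (fun _ => kˣ) j
  have hψ : (rho k n).ker ≤ ψ.ker := by
    intro d hd
    have h1 : dg d = 1 := congrArg Subtype.val (MonoidHom.mem_ker.1 hd)
    have h2 : d = 1 := funext fun a => Units.ext (by
      have := congrArg (fun g : GL n k => (g : Matrix n n k) a a) h1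
      simpa [dg_val] using this)
    rw [h2]
    exact one_mem _
  exact ⟨(rho k n).liftOfSurjective rho_surj ⟨ψ, hψ⟩, fun d =>
    (rho k n).liftOfRightInverse_comp_apply _ _ ⟨ψ, hψ⟩ d⟩

/-- the characters `d i / d j` -/
noncomputable def chi (k : Type u) [Field k] {n : Type} [Fintype n] [DecidableEq n] (i j : n) :
    DT k n →* kˣ := (exists_chi i j).choose

theorem chi_rho (i j : n) (d : n → kˣ) : chi k i j (rho k n d) = d i / d j :=
  (exists_chi i j).choose_spec d

theorem isRoot_iff [IsAlgClosed k] (χ : DT k n →* kˣ) :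
    IsRoot ⊤ (DT k n) χ ↔ ∃ i j, i ≠ j ∧ χ = chi k i j := by
  constructor
  · rintro ⟨h1, y, -, hy0, h⟩
    obtain ⟨i, j, hij⟩ : ∃ i j, y i j ≠ 0 := by
      by_contra hc
      push Not at hc
      exact hy0 (Matrix.ext hc)
    have h2 : χ = chi k i j := ext_rho fun d => by
      have h3 := congrFun (congrFun (h (rho k n d)) i) j
      rw [chi_rho]
      exact Units.ext (mul_right_cancel₀ hij (h3.symm.trans (PG5.conj_apply d y i j)))
    refine ⟨i, j, fun e => h1 (h2.trans (ext_rho fun d => ?_)), h2⟩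
    simp [chi_rho, e]
  · rintro ⟨i, j, hij, rfl⟩
    refine ⟨fun h => ?_, single i j 1, lie_top _, fun h => ?_, fun t => ?_⟩
    · have h1 : (1 : ℤ) = 0 := zpow_inj (k := k) fun s => by
        have h3 := chi_rho (k := k) i j (Pi.mulSingle i s)
        rw [h] at h3
        simpa [Pi.mulSingle_eq_of_ne hij.symm] using h3.symm
      exact one_ne_zero h1
    · simpa using congrFun (congrFun h i) j
    · obtain ⟨d, rfl⟩ := rho_surj t
      rw [chi_rho]
      refine Matrix.ext fun a b => (PG5.conj_apply d _ a b).trans ?_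
      rw [Matrix.smul_apply, smul_eq_mul]
      by_cases hab : i = a ∧ j = b
      · rw [hab.1, hab.2]
      · simp [single_apply_of_ne _ _ _ _ _ hab]

/-- the simple roots -/
noncomputable def al (k : Type u) [Field k] {M : ℕ} (m : Fin M) : DT k (Fin (M + 1)) →* kˣ :=
  chi k m.castSucc m.succ

theorem al_tau {M : ℕ} (m m' : Fin M) (s : kˣ) :
    al k m' (rho k _ (PG5.tau m s)) = if m' = m then s else 1 := by
  rw [al, chi_rho, PG5.tau, PG5.tau]
  rcases lt_trichotomy m' m with h | h | h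
  · have h1 : m'.castSucc ≤ m.castSucc := Fin.castSucc_le_castSucc_iff.2 h.le
    have h2 : m'.succ ≤ m.castSucc := Fin.succ_le_castSucc_iff.2 h
    simp [h1, h2, h.ne]
  · subst h
    have h2 : ¬ m'.succ ≤ m'.castSucc := not_le.2 Fin.castSucc_lt_succ
    simp [h2]
  · have h1 : ¬ m'.castSucc ≤ m.castSucc := not_le.2 (Fin.castSucc_lt_castSucc_iff.2 h)
    have h2 : ¬ m'.succ ≤ m.castSucc := fun h2 => h1 (Fin.castSucc_lt_succ.le.trans h2)
    simp [h1, h2, h.ne']

theorem prod_tau {M : ℕ} (c : Fin M → ℤ) (m : Fin M) (s : kˣ) :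
    (∏ m', al k m' ^ c m') (rho k _ (PG5.tau m s)) = s ^ c m := by
  rw [MonoidHom.finsetProd_apply, Finset.prod_eq_single m]
  · rw [MonoidHom.zpow_apply, al_tau, if_pos rfl]
  · intro b _ hb
    rw [MonoidHom.zpow_apply, al_tau, if_neg hb, _root_.one_zpow]
  · simp

theorem al_inj [Infinite k] {M : ℕ} : Function.Injective (al k : Fin M → _) := by
  intro m m' h
  by_contra hm
  have h1 : (1 : ℤ) = 0 := zpow_inj (k := k) fun s => by
    have h3 := al_tau (k := k) m m s
    rw [h, al_tau, if_pos rfl, if_neg (Ne.symm hm)] at h3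
    simpa using h3.symm
  exact one_ne_zero h1

theorem chi_mem {M : ℕ} (i j : Fin (M + 1)) (h : i ≤ j) :
    chi k i j ∈ Submonoid.closure (Set.range (al k : Fin M → _)) := by
  have h0 : ∀ i : Fin (M + 1), chi k i i ∈ Submonoid.closure (Set.range (al k : Fin M → _)) := by
    intro i
    rw [show chi k i i = 1 from ext_rho fun d => by simp [chi_rho]]
    exact one_mem _
  induction j using Fin.induction with
  | zero =>
    rw [Fin.le_zero_iff.1 h]
    exact h0 _
  | succ m ih =>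
    rcases h.eq_or_lt with rfl | h1
    · exact h0 _
    · rw [show chi k i m.succ = chi k i m.castSucc * al k m from
        ext_rho fun d => by simp [al, chi_rho]]
      exact mul_mem (ih (Fin.le_castSucc_iff.2 h1)) (Submonoid.subset_closure ⟨m, rfl⟩)

theorem chi_prod [Infinite k] {M : ℕ} (i j : Fin (M + 1)) (h : i ≤ j) :
    ∃ c : (DT k (Fin (M + 1)) →* kˣ) → ℕ,
      chi k i j = ∏ α ∈ Finset.univ.map ⟨al k, al_inj⟩, α ^ c α := by
  obtain ⟨a, ha⟩ := Submonoid.mem_closure_range_iff_of_fintype.1 (chi_mem (k := k) i j h)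
  refine ⟨Function.extend (al k) a 0, ?_⟩
  rw [Finset.prod_map, ha]
  exact Finset.prod_congr rfl fun m _ => by
    rw [Function.Embedding.coeFn_mk, al_inj.extend_apply]

theorem good_top [IsAlgClosed k] (p : ℕ) [Fact p.Prime] (M : ℕ) :
    IsGood p (⊤ : Subgroup (GL (Fin (M + 1)) k)) := by
  refine ⟨_, max_DT, Finset.univ.map ⟨al k, al_inj⟩, ⟨fun α hα => ?_, fun c hc α hα => ?_,
    fun β hβ => ?_⟩, fun θ hθ c hc α hα h0 hp => ?_⟩
  · obtain ⟨m, -, rfl⟩ := Finset.mem_map.1 hα
    exact (isRoot_iff _).2 ⟨_, _, Fin.castSucc_lt_succ.ne, rfl⟩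
  · obtain ⟨m, -, rfl⟩ := Finset.mem_map.1 hα
    rw [Finset.prod_map] at hc
    refine zpow_inj (k := k) fun s => ?_
    have h1 := prod_tau (k := k) (fun m => c (al k m)) m s
    rw [zpow_zero]
    exact h1.symm.trans (DFunLike.congr_fun hc _)
  · obtain ⟨i, j, -, rfl⟩ := (isRoot_iff _).1 hβ
    rcases le_total i j with h | h
    · exact (chi_prod i j h).imp fun c hc => Or.inl hc
    · refine (chi_prod j i h).imp fun c hc => Or.inr ?_
      rw [← hc]
      exact ext_rho fun d => by simp [chi_rho]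
  · obtain ⟨m, -, rfl⟩ := Finset.mem_map.1 hα
    obtain ⟨i, j, -, rfl⟩ := (isRoot_iff _).1 hθ.1
    rw [Finset.prod_map] at hc
    have h1 : ((c (al k m) : ℕ) : ℤ) = (if i ≤ m.castSucc then (1 : ℤ) else 0) -
        (if j ≤ m.castSucc then (1 : ℤ) else 0) := zpow_inj (k := k) fun s => by
      have h3 := prod_tau (k := k) (fun m => (c (al k m) : ℤ)) m s
      have h6 : (∏ m', al k m' ^ (c (al k m') : ℤ)) = ∏ m', al k m' ^ c (al k m') :=
        Finset.prod_congr rfl fun m' _ => MonoidHom.ext fun t => by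
          rw [MonoidHom.zpow_apply, MonoidHom.pow_apply, _root_.zpow_natCast]
      rw [h6] at h3
      have h5 := DFunLike.congr_fun hc (rho k _ (PG5.tau m s))
      rw [chi_rho, PG5.tau, PG5.tau, div_eq_mul_inv, ← _root_.zpow_sub] at h5
      exact h3.symm.trans h5.symm
    have h3 : c (al k m) = 1 := by
      have h0' : c (al k m) ≠ 0 := h0
      split_ifs at h1 <;> omega
    have hp' : p ∣ c (al k m) := hp
    rw [h3] at hp'
    exact (Fact.out : p.Prime).one_lt.ne' (Nat.dvd_one.1 hp')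

end GLC

/-- the full matrix algebra is the Lie algebra of the general linear group -/
theorem concl_gl (k : Type u) [Field k] [IsAlgClosed k] (p : ℕ) [Fact p.Prime] (m : ℕ)
    (hm : 0 < m) : Concl k p (Matrix (Fin m) (Fin m) k) := by
  obtain ⟨M, rfl⟩ : ∃ M, m = M + 1 := ⟨m - 1, by omega⟩
  refine ⟨_, inferInstance, inferInstance, ⊤, LieHom.id, GLC.red_top, GLC.good_top p M,
    Function.injective_id, Set.eq_of_subset_of_subset (fun x _ => GLC.lie_top x)
      fun x _ => ⟨x, rfl⟩, fun hc => ?_⟩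
  have h1 : (1 : Matrix (Fin (M + 1)) (Fin (M + 1)) k) ∈ LieAlgebra.center k _ := lie_one'
  rw [hc, LieSubmodule.mem_bot] at h1
  exact absurd h1 one_ne_zero

end Pool.Agent.Lib.PRC2
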