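import Pool.Agent.Lib.PRC2.N3
import Pool.Agent.Lib.PRC.B_N4
import Pool.Agent.Lib.PRC.B_RES
import Pool.Agent.Lib.PRC.B_PROD
import Pool.Agent.Lib.PRC.Final

namespace Pool.Agent.Lib.PRC2

open Matrix Pool.Agent.Lib.MP_3a0263_al Pool.Agent.Lib.MP_3a0263_al.R Pool.Agent.Lib.MP_3a0263_al.Q
  Pool.Agent.Lib.PRC LieAlgebra.SpecialLinear

attribute [local instance 100] LieRing.ofAssociativeRing

universe u

open N4 in
theorem all_n4 (k : Type u) [Field k] [IsAlgClosed k] (p : ℕ) [hpp : Fact p.Prime] [CharP k p] :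
    S_n4 k p := by
  intro n _ _ L π h m hm hpm φ H
  have h1 := one_ne p h hm hpm H
  haveI : Nonempty (Fin m) := ⟨⟨0, hm⟩⟩
  obtain ⟨lam, hl⟩ := h.cent (z := φ 1) fun x hx => by
    obtain ⟨a, c, -, rfl, hc⟩ := H.span x hx
    have e : ⁅a, (1 : Matrix (Fin m) (Fin m) k)⁆ = 0 := by simp [Ring.lie_def]
    rw [add_lie, ← LieHom.map_lie, e, map_zero, zero_add, ← lie_skew, hc, neg_zero]
  have hl0 : lam ≠ 0 := fun e => h1 (by rw [hl, e, zero_smul])
  have hinj : ∀ a, φ a = 0 → a = 0 := fun a ha => by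
    obtain ⟨c, rfl⟩ := H.ker a ha
    rw [map_smul, smul_eq_zero] at ha
    rw [ha.resolve_right h1, zero_smul]
  obtain ⟨X, Y, -, -, -, -, hXY⟩ := exists_pair (k := k) (p := p) (n := Fin m) (by simpa using hpm)
  obtain ⟨U, Z, hUZ⟩ : ∃ U Z : Matrix (Fin m) (Fin m) k, ⁅U, Z⁆ = 1 := by
    have h2 := adr_of_pow _ _ _ hXY 1
    obtain ⟨q, hq⟩ : ∃ q, p - 1 = q + 1 := ⟨p - 2, by have := hpp.out.two_le; omega⟩
    rw [hq, pow_succ', Module.End.mul_apply, adr_apply] at h2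
    exact ⟨_, _, h2⟩
  have hrange : ∀ x ∈ L, ∃ a, φ a = x := by
    intro x hx
    obtain ⟨a, c, hcL, rfl, hc⟩ := H.span x hx
    have e1 : ⁅φ U, φ Z * c⁆ = lam • c := by
      have e2 : φ U * φ Z - φ Z * φ U = lam • 1 := by
        rw [← hl, ← hUZ, LieHom.map_lie, Ring.lie_def]
      have e3 : φ U * c = c * φ U := sub_eq_zero.1 (hc U)
      rw [Ring.lie_def, mul_assoc, ← e3, ← mul_assoc, ← mul_assoc, ← sub_mul, e2, smul_mul_assoc,
        one_mul]
    have e4 := h.equi _ (H.mem U) (φ Z * c)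
    rw [e1, map_smul, h.left c hcL] at e4
    obtain ⟨a', c', -, e5, hc'⟩ := H.span _ (h.mem (φ Z * c))
    rw [e5, lie_add, hc', add_zero, ← LieHom.map_lie] at e4
    refine ⟨a + lam⁻¹ • ⁅U, a'⁆, ?_⟩
    rw [map_add, map_smul, ← e4, smul_smul, inv_mul_cancel₀ hl0, one_smul]
  let ψ : Matrix (Fin m) (Fin m) k →ₗ⁅k⁆ L := (sm H).comp (LieHom.inl k _ _)
  have hψ : ∀ a, (ψ a).1 = φ a := fun a => add_zero _
  refine ⟨(LieEquiv.ofBijective ψ ⟨fun a b e => ?_, fun x => ?_⟩).symm⟩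
  · have := congrArg Subtype.val e
    rw [hψ, hψ] at this
    exact sub_eq_zero.1 (hinj _ (by rw [map_sub, this, sub_self]))
  · obtain ⟨a, ha⟩ := hrange x.1 x.2
    exact ⟨a, Subtype.ext ((hψ a).trans ha)⟩

theorem all_res (k : Type u) [Field k] [IsAlgClosed k] : S_res k := by
  rintro g _ _ ⟨Y, _, _, _, _, hfd, hf, hi, R, hc, hR⟩ I I' hI
  obtain ⟨π, hπ1, hπ2⟩ := exists_proj hf R hc hR
  have : Nontrivial Y := LieModule.nontrivial_of_isIrreducible k g Y
  obtain ⟨N, hN, -⟩ := (eq_bot_or_exists_atom_le (⊤ : LieSubmodule k I Y)).resolve_left top_ne_bot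
  have hirr := RES.irr_of_atom hN
  let A := Algebra.adjoin k (Set.range fun x : I => LieModule.toEnd k g Y x)
  have hex : ∀ b : Module.End k N, ∃ a ∈ A, ∀ y : N, a y = b y := fun b => by
    have hb : b ∈ Algebra.adjoin k (Set.range (LieModule.toEnd k I N)) := by
      rw [Setup.burnside_lie hirr]; trivial
    induction hb using Algebra.adjoin_induction with
    | mem b hb =>
      obtain ⟨x, rfl⟩ := hb
      exact ⟨_, Algebra.subset_adjoin ⟨x, rfl⟩, fun y => rfl⟩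
    | algebraMap c => exact ⟨_, A.algebraMap_mem c, fun y => rfl⟩
    | add b b' _ _ h h' =>
      obtain ⟨a, ha, e⟩ := h
      obtain ⟨a', ha', e'⟩ := h'
      exact ⟨a + a', A.add_mem ha ha', fun y => by simp [e, e']⟩
    | mul b b' _ _ h h' =>
      obtain ⟨a, ha, e⟩ := h
      obtain ⟨a', ha', e'⟩ := h'
      exact ⟨a * a', A.mul_mem ha ha', fun y => by simp [e, e']⟩
  choose s hs hs' using hex
  have huniq : ∀ (b : Module.End k N), ∀ a ∈ A, (∀ y : N, a y = b y) → s b = a :=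
    fun b a ha h => sub_eq_zero.1 (RES.inj hi hI hN.1 (A.sub_mem (hs b) ha) fun y => by
      rw [LinearMap.sub_apply, hs', h, sub_self])
  let σ : Module.End k N →ₗ[k] Module.End k Y :=
    { toFun := s
      map_add' := fun b b' => huniq _ _ (A.add_mem (hs b) (hs b')) fun y => by simp [hs']
      map_smul' := fun c b => huniq _ _ (A.smul_mem (hs b) c) fun y => by simp [hs'] }
  have hσ1 : ∀ x : I, σ (LieModule.toEnd k I N x) = LieModule.toEnd k g Y x := fun x =>
    huniq _ _ (Algebra.subset_adjoin ⟨x, rfl⟩) fun y => rfl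
  have hσ2 : ∀ b b', σ (b * b') = σ b * σ b' := fun b b' =>
    huniq _ _ (A.mul_mem (hs b) (hs b')) fun y => by
      change s b (s b' y) = _
      simp [hs']
  have hI' : IsCompl I.toSubmodule I'.toSubmodule := LieSubmodule.isCompl_toSubmodule.2 hI
  let pr : g →ₗ[k] I := Submodule.projectionOnto I.toSubmodule I'.toSubmodule hI'
  have pr1 : ∀ x : I, pr x = x := Submodule.projectionOnto_apply_left hI'
  have pr2 : ∀ x ∈ I', pr x = 0 := fun x hx => Submodule.projectionOnto_apply_of_mem_right hI' hx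
  have pr3 : ∀ (x : I) (z : g), pr ⁅(x : g), z⁆ = ⁅x, pr z⁆ := fun x z => by
    obtain ⟨z1, h1, z2, h2, rfl⟩ := RES.split hI z
    rw [lie_add, RES.lie_eq_zero hI x.2 h2, add_zero, map_add, pr2 z2 h2, add_zero, pr1 ⟨z1, h1⟩]
    exact pr1 ⁅x, (⟨z1, h1⟩ : I)⁆
  let π1 : Module.End k N →ₗ[k] I := pr ∘ₗ π ∘ₗ σ
  have h1 : ∀ x : I, π1 (LieModule.toEnd k I N x) = x := fun x => by
    change pr (π (σ _)) = x
    rw [hσ1, hπ1, pr1]
  refine ⟨N, inferInstance, inferInstance, inferInstance, inferInstance, inferInstance,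
    ⟨fun x y e => by rw [← h1 x, e, h1]⟩, hirr, LinearMap.ker π1, ⟨?_, ?_⟩, fun x r hr => ?_⟩
  · rw [Submodule.disjoint_def]
    rintro _ ⟨x, rfl⟩ hx
    have : x = 0 := (h1 x).symm.trans hx
    rw [this, map_zero]
  · rw [codisjoint_iff, eq_top_iff]
    intro b _
    refine Submodule.mem_sup.2 ⟨_, ⟨π1 b, rfl⟩, b - LieModule.toEnd k I N (π1 b), ?_,
      add_sub_cancel _ _⟩
    rw [LinearMap.mem_ker, map_sub, h1, sub_self]
  · rw [Ring.lie_def]
    change pr (π (σ _)) = 0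
    rw [map_sub, hσ2, hσ2, hσ1, hπ2, pr3]
    have : pr (π (σ r)) = 0 := hr
    rw [this, lie_zero]

open PROD in
theorem all_prod (k : Type u) [Field k] [IsAlgClosed k] : S_prod k := by
  intro g _ _ _ hc S s1 s2 s3
  let K : LieIdeal k g → LieIdeal k g := fun I => LieAlgebra.center k g ⊔ sSup (S \ {I})
  have hK : ∀ I ∈ S, IsCompl I (K I) := fun I hI => compl_rest s1 s2 hI (s3 I hI).1
  have key : ∀ T : Set (LieIdeal k g), T.Finite → T ⊆ S → Has (⨅ I ∈ T, K I) := by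
    intro T hT
    induction T, hT using Set.Finite.induction_on with
    | empty => intro _; simpa using has_top
    | @insert I T hI _ ih =>
      intro hs
      have hIS : I ∈ S := hs (Set.mem_insert _ _)
      rw [iInf_insert]
      refine (has_of_strong (hK I hIS) (s3 I hIS).1 (s3 I hIS).2).inf
        (ih ((Set.subset_insert _ _).trans hs)) ?_
      rw [eq_top_iff, ← (hK I hIS).sup_eq_top, sup_comm]
      refine sup_le_sup_left (le_iInf₂ fun J hJ => le_sup_of_le_right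
        (le_sSup ((Set.mem_sdiff _).2 ⟨hIS, ?_⟩))) _
      rintro rfl
      exact hI hJ
  have h := key S (WellFoundedGT.finite_of_sSupIndep s1) subset_rfl
  have e : ⨅ I ∈ S, K I = LieAlgebra.center k g := by
    refine le_antisymm (fun x hx a => ?_) (le_iInf₂ fun I _ => le_sup_left)
    have : (⊤ : LieIdeal k g) ≤ cent (⨅ I ∈ S, K I) := by
      rw [← s2.sup_eq_top]
      refine sup_le (fun z hz y _ => ?_) (sSup_le fun I hI b hb y hy => ?_)
      · rw [← lie_skew, hz y, neg_zero]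
      · have h3 : ⁅b, y⁆ ∈ I ⊓ K I :=
          ⟨lie_mem_left k g I _ _ hb, LieSubmodule.lie_mem _ (iInf₂_le (f := fun I _ => K I) I hI hy)⟩
        rw [(hK I hI).inf_eq_bot] at h3
        exact (LieSubmodule.mem_bot _).1 h3
    exact this (LieSubmodule.mem_top a) x hx
  rw [e] at h
  exact rich_of_has hc s2 h

variable {k : Type u} [Field k]

theorem strong_sl {m : ℕ} (hm : ((m + 2 : ℕ) : k) ≠ 0) : Strong k (sl (Fin (m + 2)) k) := by
  let θ := Matrix.toLinAlgEquiv' (R := k) (n := Fin (m + 2))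
  let ρ : sl (Fin (m + 2)) k →ₗ⁅k⁆ Module.End k (Fin (m + 2) → k) :=
    θ.toAlgHom.toLieHom.comp (sl (Fin (m + 2)) k).incl
  let _ : LieRingModule (sl (Fin (m + 2)) k) (Fin (m + 2) → k) :=
    LieRingModule.compLieHom (Fin (m + 2) → k) ρ
  have : LieModule k (sl (Fin (m + 2)) k) (Fin (m + 2) → k) :=
    LieModule.compLieHom (Fin (m + 2) → k) ρ
  have he : ∀ x, LieModule.toEnd k (sl (Fin (m + 2)) k) (Fin (m + 2) → k) x = θ x.1 :=
    fun x => rfl
  refine ⟨Fin (m + 2) → k, inferInstance, inferInstance, inferInstance, inferInstance,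
    inferInstance, ?_, by simpa using hm,
    ⟨Matrix.single 0 1 1, trace_single_eq_of_ne _ _ _ Fin.zero_ne_one⟩,
    ⟨Matrix.single 1 0 1, trace_single_eq_of_ne _ _ _ Fin.zero_ne_one.symm⟩, ?_⟩
  · refine LieModule.IsIrreducible.mk fun N hN => ?_
    obtain ⟨v, hv, h0⟩ := (LieSubmodule.eq_bot_iff N).not.1 hN |> not_forall₂.1
    rw [eq_top_iff]
    intro w _
    obtain ⟨f, hf⟩ : ∃ f : Module.End k (Fin (m + 2) → k), f v = w := by
      obtain ⟨l, hl⟩ := Module.Projective.exists_dual_ne_zero k h0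
      exact ⟨((l v)⁻¹ • l).smulRight w, by simp [hl]⟩
    obtain ⟨a, rfl⟩ := θ.surjective f
    have h1 := (rich_sl hm).mem a
    have h2 : θ a v = ⁅(⟨_, h1⟩ : sl (Fin (m + 2)) k), v⁆ +
        (((m + 2 : ℕ) : k)⁻¹ * a.trace) • v := by
      change _ = θ (a - (((m + 2 : ℕ) : k)⁻¹ * a.trace) • 1) v + _
      rw [map_sub, map_smul, map_one]
      simp
    rw [← hf, h2]
    exact N.add_mem (N.lie_mem hv) (N.smul_mem _ hv)
  · rw [LieModule.traceForm_apply_apply, he, he, ← Module.End.mul_eq_comp, ← map_mul]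
    change LinearMap.trace k _ (Matrix.toLin' _) ≠ 0
    rw [Matrix.trace_toLin'_eq, single_mul_single_same, trace_single_eq_same]
    simp

variable {n : Type} [Fintype n] [DecidableEq n] {L : LieSubalgebra k (Matrix n n k)}
  {π : Matrix n n k →ₗ[k] Matrix n n k}

/-- a simple algebra containing a copy of `gl` or `pgl` in this way is `sl` -/
theorem strong_of_glIn [IsAlgClosed k] (p : ℕ) [Fact p.Prime] [CharP k p] (hR : Rich L π)
    (hs : LieAlgebra.IsSimple k L) {m : ℕ}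
    {φ : Matrix (Fin (m + 2)) (Fin (m + 2)) k →ₗ⁅k⁆ Matrix n n k} (H : GlIn L φ) :
    Strong k L := by
  let ψ : Matrix (Fin (m + 2)) (Fin (m + 2)) k →ₗ⁅k⁆ L := (N4.sm H).comp (LieHom.inl k _ _)
  have hψ : ∀ a, (ψ a).1 = φ a := fun a => add_zero _
  have h1 : φ 1 = 0 := by
    have : ψ 1 ∈ LieAlgebra.center k L := fun x => Subtype.ext (by
      obtain ⟨a, c, -, e, hc⟩ := H.span x.1 x.2
      change ⁅x.1, (ψ 1).1⁆ = 0
      rw [hψ, e, add_lie, ← LieHom.map_lie, lie_one', map_zero, zero_add, ← lie_skew, hc, neg_zero])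
    rw [LieAlgebra.center_eq_bot] at this
    rw [← hψ, (LieSubmodule.mem_bot _).1 this]
    rfl
  have hm : ((m + 2 : ℕ) : k) ≠ 0 := fun h =>
    N4.one_ne p hR (by omega) ((CharP.cast_eq_zero_iff k p _).1 h) H h1
  let I : LieIdeal k L :=
    { LinearMap.range ψ.toLinearMap with
      lie_mem := by
        rintro x _ ⟨b, rfl⟩
        obtain ⟨a, c, -, e, hc⟩ := H.span x.1 x.2
        refine ⟨⁅a, b⁆, Subtype.ext ((hψ _).trans ?_)⟩
        change _ = ⁅x.1, (ψ b).1⁆
        rw [hψ, e, add_lie, ← lie_skew c, hc, neg_zero, add_zero, LieHom.map_lie] }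
  have hI : I = ⊤ := (hs.eq_bot_or_eq_top I).resolve_left fun h => by
    have h2 : ψ (Matrix.single 0 1 1) ∈ I := ⟨_, rfl⟩
    rw [h, LieSubmodule.mem_bot] at h2
    obtain ⟨c, hc⟩ := H.ker _ ((hψ _).symm.trans (congrArg Subtype.val h2))
    simpa using congrFun (congrFun hc 0) 1
  refine (strong_sl hm).of_equiv (LieEquiv.ofBijective (ψ.comp (sl _ k).incl) ⟨?_, fun x => ?_⟩).symm
  · refine (injective_iff_map_eq_zero _).2 fun a ha => Subtype.ext ?_
    obtain ⟨c, hc⟩ := H.ker a.1 ((hψ _).symm.trans (congrArg Subtype.val ha))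
    have h3 : Matrix.trace a.1 = 0 := a.2
    rw [hc, trace_smul, trace_one, Fintype.card_fin, smul_eq_mul] at h3
    rw [hc, (mul_eq_zero.1 h3).resolve_right hm, zero_smul]
    rfl
  · obtain ⟨a, ha⟩ : x ∈ I := hI ▸ trivial
    refine ⟨⟨_, (rich_sl hm).mem a⟩, Subtype.ext ((hψ _).trans ?_)⟩
    change φ (a - (((m + 2 : ℕ) : k)⁻¹ * a.trace) • 1) = _
    rw [map_sub, map_smul, h1, smul_zero, sub_zero, ← hψ]
    exact congrArg Subtype.val ha

theorem X2.strong [IsAlgClosed k] [CharP k 2] {Φ : Type u} [Fintype Φ] (R : X2 L Φ)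
    (hR : Rich L π) (hs : LieAlgebra.IsSimple k L) : Strong k L := by
  obtain ⟨i, hi⟩ := L0.delta_nonempty R.toCRoot hs
  obtain ⟨N, v, T, -⟩ := compA R.goodAll R.odd hi
  obtain ⟨φ, H⟩ := R.exists_gl T
  exact strong_of_glIn 2 hR hs (m := N + 1) H

end Pool.Agent.Lib.PRC2
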