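import Pool.Agent.Lib.PRC2.Heis
import Pool.Agent.Lib.MP_3a0263_al.R.B_TWO2
import Pool.Agent.Lib.MP_3a0263_al.R.B_KOL

namespace Pool.Agent.Lib.PRC2

open Matrix Pool.Agent.Lib.MP_3a0263_al Pool.Agent.Lib.MP_3a0263_al.R

attribute [local instance 100] LieRing.ofAssociativeRing

universe u

variable {k : Type u} [Field k]

theorem engel_step {K M : Type u} [LieRing K] [LieAlgebra k K] [AddCommGroup M] [Module k M]
    [FiniteDimensional k M] (ρ : K →ₗ⁅k⁆ Module.End k M) (h : ∀ x, IsNilpotent (ρ x))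
    (V U : Submodule k M) (hV : ∀ x, ∀ v ∈ V, ρ x v ∈ V) (hU : ¬ V ≤ U) :
    ∃ v ∈ V, v ∉ U ∧ ∀ x, ρ x v ∈ U := by
  let _ : LieRingModule K M := LieRingModule.compLieHom M ρ
  have : LieModule k K M := LieModule.compLieHom M ρ
  obtain ⟨m, hm⟩ := (LieModule.isNilpotent_iff k K M).1
    ((LieModule.isNilpotent_iff_forall' (R := k)).2 h)
  by_contra hc
  push Not at hc
  have key : ∀ j, (∀ v ∈ V, v ∈ LieModule.lowerCentralSeries k K M j → v ∈ U) → V ≤ U := by
    intro j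
    induction j with
    | zero => exact fun h1 v hv => h1 v hv trivial
    | succ j ih =>
      refine fun h1 => ih fun v hv h2 => by_contra fun h3 => ?_
      obtain ⟨x, hx⟩ := hc v hv h3
      refine hx (h1 _ (hV x v hv) ?_)
      rw [LieModule.lowerCentralSeries_succ]
      exact LieSubmodule.lie_mem_lie (LieSubmodule.mem_top x) h2
  exact hU (key m fun v _ hv => by
    rw [hm, LieSubmodule.mem_bot] at hv
    rw [hv]; exact U.zero_mem)

variable [CharP k 2] {n : Type} [Fintype n] [DecidableEq n]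
  {L : LieSubalgebra k (Matrix n n k)} {π : Matrix n n k →ₗ[k] Matrix n n k}
  {Φ : Type u} [Fintype Φ] {Λ : Type u} [AddCommGroup Λ]

/-- an unpaired root vector with invertible square -/
theorem unp_inv (hR : Rich L π) (R : Frame L Φ) (hD : Diag L R.t) {g : Φ} (hg : R.neg g = g)
    {c : k} (hc : R.e g ^ 2 = c • 1) (c0 : c ≠ 0) :
    Module.finrank k L = 2 ∧ ¬ IsLieAbelian L := by
  obtain ⟨H, hH⟩ : ∃ d, R.wt g d = 1 := by
    obtain ⟨d, hd⟩ : ∃ d, R.wt g d ≠ 0 := by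
      by_contra hc
      push Not at hc
      exact R.wt_ne g (LinearMap.ext hc)
    exact ⟨(R.wt g d)⁻¹ • d, by rw [map_smul, smul_eq_mul, inv_mul_cancel₀ hd]⟩
  have mul : ∀ a b c : Matrix n n k, ⁅a, b * c⁆ = ⁅a, b⁆ * c + b * ⁅a, c⁆ := fun a b c => by
    simp only [Ring.lie_def]; noncomm_ring
  have em : ∀ β, R.e β ∈ wsp L R.t (R.wt β) := fun β => ⟨R.e_mem β, R.e_wA β⟩
  have hk : ∀ d : R.t, R.wt g d = 0 → diagonal d.1 = 0 := fun d hd => by
    have h1 : diagonal d.1 * (R.e g * diagonal H.1) ∈ wA R.t (R.wt g) := by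
      simpa using wA_mul (diagonal_mem_wA d.1) (wA_mul (R.e_wA g) (diagonal_mem_wA H.1))
    have h2 := hR.equi _ (R.e_mem g) (diagonal d.1 * (R.e g * diagonal H.1))
    rw [R.eq_single_of_wt (hR.pi_wA hD h1) (Or.inl hg), lie_smul, lie_self, smul_zero, mul, mul,
      lie_self, Two2.e_lie_t, Two2.e_lie_t, hd, hH, one_smul, mul_neg, ← pow_two, hc] at h2
    simp only [zero_smul, neg_zero, zero_mul, zero_add, mul_neg, mul_smul_comm, mul_one, map_neg,
      map_smul, neg_eq_zero, hR.left _ (R.t_mem d)] at h2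
    exact (smul_eq_zero.1 h2).resolve_left c0
  have one : ∀ β, β = g := fun β => by
    have := (one_weight hD (R.wt_ne g) (em g) (R.e_ne g)
      (fun d hd => ⟨0, by rw [hk d hd, zero_smul]⟩) (em β) (R.e_ne β)).resolve_left (R.wt_ne β)
    exact (R.wt_inj g β this.symm).elim id fun e => e.trans hg
  refine ⟨?_, fun h => R.e_ne g ?_⟩
  · let f : L →ₗ[k] k × k := ((R.wt g ∘ₗ R.tp).prod (R.cf g)) ∘ₗ L.toSubmodule.subtype
    have hf : ∀ x : L, f x = (R.wt g (R.tp x.1), R.cf g x.1) := fun _ => rfl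
    have hb : Function.Bijective f := by
      refine ⟨(injective_iff_map_eq_zero _).2 fun x hx => Subtype.ext ?_, fun y => ?_⟩
      · rw [hf, Prod.mk_eq_zero] at hx
        refine R.eq_zero x.2 ?_ fun β => by rw [one β, hx.2]
        rw [← R.tp_t (R.tp x.1), hk _ hx.1, map_zero]
      · refine ⟨⟨y.1 • diagonal H.1 + y.2 • R.e g,
          L.add_mem (L.smul_mem _ (R.t_mem H)) (L.smul_mem _ (R.e_mem g))⟩, ?_⟩
        rw [hf]
        simp [R.tp_t, R.tp_e, R.cf_t, R.cf_self, hH]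
    simpa using (LinearEquiv.ofBijective f hb).finrank_eq
  · have h1 := congrArg Subtype.val (h.trivial (⟨_, R.t_mem H⟩ : L) ⟨_, R.e_mem g⟩)
    have h2 := R.lie_e H g
    rw [hH, one_smul] at h2
    exact h2.symm.trans h1

/-- the span of a set of root vectors -/
def KS (R : Frame L Φ) (S : Set Φ) : Submodule k (Matrix n n k) := Submodule.span k (R.e '' S)

theorem e_mem_KS (R : Frame L Φ) {S : Set Φ} {β : Φ} (h : β ∈ S) : R.e β ∈ KS R S :=
  Submodule.subset_span ⟨β, h, rfl⟩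

theorem KS_le (R : Frame L Φ) {S : Set Φ} {J : Submodule k (Matrix n n k)}
    (h : ∀ β ∈ S, R.e β ∈ J) : KS R S ≤ J :=
  Submodule.span_le.2 (by rintro _ ⟨β, hβ, rfl⟩; exact h β hβ)

theorem mem_KS (R : Frame L Φ) {S : Set Φ} {x : Matrix n n k} :
    x ∈ KS R S ↔ x ∈ L ∧ R.tp x = 0 ∧ ∀ β, β ∉ S → R.cf β x = 0 := by
  refine ⟨fun h => ⟨KS_le R (J := L.toSubmodule) (fun β _ => R.e_mem β) h,
    KS_le R (J := LinearMap.ker R.tp) (fun β _ => R.tp_e β) h, fun β hβ =>
      KS_le R (J := LinearMap.ker (R.cf β)) (fun γ hγ => R.cf_ne _ _ fun e => hβ (e ▸ hγ)) h⟩,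
    fun ⟨h1, h2, h3⟩ => ?_⟩
  rw [R.decomp x h1, h2, diagonal_coe_zero, zero_add]
  refine Submodule.sum_mem _ fun β _ => ?_
  by_cases h : β ∈ S
  · exact Submodule.smul_mem _ _ (e_mem_KS R h)
  · rw [h3 β h, zero_smul]; exact Submodule.zero_mem _

theorem sq_add (x y : Matrix n n k) : (x + y) ^ 2 = x ^ 2 + y ^ 2 + ⁅x, y⁆ := by
  rw [Ring.lie_def, sub_eq_add_neg, Two2.neg_self]
  noncomm_ring

/-- unpaired root vectors with zero squares do not exist -/
theorem unp_nil (hR : Rich L π) (R : Pre2 L Φ Λ) (h0 : ∀ g, R.neg g = g → R.e g ^ 2 = 0) (g : Φ) :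
    R.neg g ≠ g := by
  classical
  intro hg
  let U : Set Φ := {β | R.neg β = β}
  have hJ : ∀ x ∈ L, ∀ y ∈ KS R.toFrame U, ⁅x, y⁆ ∈ KS R.toFrame U := fun x hx y hy => by
    rw [mem_KS] at hy ⊢
    exact ⟨L.lie_mem hx hy.1, (Two2.J hR R).lie_mem (x := ⟨x, hx⟩) (m := ⟨y, hy.1⟩) hy.2⟩
  have hL : ∀ {S}, ∀ x ∈ KS R.toFrame S, x ∈ L := fun x hx => ((mem_KS _).1 hx).1
  obtain ⟨S, ⟨s1, s2, s3⟩, hmax⟩ := exists_maximal_of_wellFoundedGT (fun S : Set Φ => S ⊆ U ∧
    (∀ x ∈ KS R.toFrame S, ∀ y ∈ KS R.toFrame S, ⁅x, y⁆ ∈ KS R.toFrame S) ∧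
      ∀ x ∈ KS R.toFrame S, IsNilpotent x) ⟨∅, Set.empty_subset _, by simp [KS], by simp [KS]⟩
  let K : LieSubalgebra k (Matrix n n k) :=
    { KS R.toFrame S with lie_mem' := fun hx hy => s2 _ hx _ hy }
  have hle : KS R.toFrame U ≤ KS R.toFrame S := by
    by_contra hn
    obtain ⟨v, v1, v2, v3⟩ := engel_step ((LieAlgebra.ad k (Matrix n n k)).comp K.incl)
      (fun x => LieAlgebra.ad_nilpotent_of_nilpotent (s3 _ x.2)) _ _
      (fun x v hv => hJ _ (hL _ x.2) v hv) hn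
    obtain ⟨δ, d1, d2⟩ : ∃ δ, δ ∉ S ∧ R.cf δ v ≠ 0 := by
      by_contra hc
      push Not at hc
      exact v2 ((mem_KS _).2 ⟨hL _ v1, ((mem_KS _).1 v1).2.1, hc⟩)
    have d3 : δ ∈ U := by_contra fun h => d2 (((mem_KS _).1 v1).2.2 δ h)
    have c1 : comp R.t (R.wt δ) v = R.cf δ v • R.e δ :=
      KS_le R.toFrame (J := LinearMap.eqLocus (comp R.t (R.wt δ)) ((R.cf δ).smulRight (R.e δ)))
        (fun β hβ => by
          change comp R.t (R.wt δ) (R.e β) = R.cf δ (R.e β) • R.e δ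
          by_cases e : δ = β
          · rw [← e, R.cf_self, one_smul, comp_of_mem (R.e_wA δ)]
          · rw [R.cf_ne _ _ e, zero_smul, comp_of_ne (R.e_wA β) fun h =>
              e ((R.wt_inj _ _ h).elim id fun h' => h'.trans hβ)]) v1
    have c2 : ∀ ω, ∀ x ∈ KS R.toFrame S, comp R.t ω x ∈ KS R.toFrame S := fun ω x hx =>
      KS_le R.toFrame (J := (KS R.toFrame S).comap (comp R.t ω)) (fun β hβ => by
        rw [Submodule.mem_comap]
        by_cases e : R.wt β = ω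
        · rw [comp_of_mem (e ▸ R.e_wA β)]; exact e_mem_KS _ hβ
        · rw [comp_of_ne (R.e_wA β) e]; exact Submodule.zero_mem _) hx
    have c3 : ∀ x ∈ KS R.toFrame S, ⁅R.e δ, x⁆ ∈ KS R.toFrame S := fun x hx =>
      KS_le R.toFrame (J := (KS R.toFrame S).comap (adm (R.e δ))) (fun β hβ => by
        have h1 := c2 (R.wt β + R.wt δ) ⁅R.e β, v⁆ (v3 ⟨_, e_mem_KS _ hβ⟩)
        rw [comp_lie (R.e_wA β), c1, lie_smul, Submodule.smul_mem_iff _ d2] at h1
        rw [Submodule.mem_comap, adm_apply, ← lie_skew]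
        exact Submodule.neg_mem _ h1) hx
    have c4 : ∀ x ∈ KS R.toFrame S, x ^ 2 ∈ KS R.toFrame S := fun x hx => by
      induction hx using Submodule.span_induction with
      | mem x hx =>
        obtain ⟨β, hβ, rfl⟩ := hx
        rw [h0 β (s1 hβ)]; exact Submodule.zero_mem _
      | zero => simp
      | add x y hx hy h1 h2 => rw [sq_add]; exact add_mem (add_mem h1 h2) (s2 x hx y hy)
      | smul c x _ h1 => rw [smul_pow]; exact Submodule.smul_mem _ _ h1
    have c5 : ∀ x ∈ KS R.toFrame (insert δ S), ∃ a : k, ∃ z ∈ KS R.toFrame S,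
        x = a • R.e δ + z := fun x hx => by
      rwa [KS, Set.image_insert_eq, Submodule.mem_span_insert] at hx
    refine d1 (hmax (y := insert δ S) ⟨Set.insert_subset d3 s1, fun x hx y hy => ?_,
      fun x hx => ?_⟩ (Set.subset_insert _ _) (Set.mem_insert _ _))
    · obtain ⟨a, z, hz, rfl⟩ := c5 x hx
      obtain ⟨b, w, hw, rfl⟩ := c5 y hy
      refine Submodule.span_mono (Set.image_mono (Set.subset_insert δ S)) ?_
      rw [add_lie, lie_add, lie_add, smul_lie, smul_lie, lie_smul, lie_smul, lie_self, smul_zero,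
        smul_zero, zero_add, ← lie_skew z]
      exact add_mem (Submodule.smul_mem _ _ (c3 w hw))
        (add_mem (Submodule.smul_mem _ _ (neg_mem (c3 z hz))) (s2 z hz w hw))
    · obtain ⟨a, z, hz, rfl⟩ := c5 x hx
      refine IsNilpotent.of_pow (m := 2) (s3 _ ?_)
      rw [sq_add, smul_pow, h0 δ d3, smul_zero, zero_add, smul_lie]
      exact add_mem (c4 z hz) (Submodule.smul_mem _ _ (c3 z hz))
  have := hR.ne
  obtain ⟨v, -, v2, v3⟩ := engel_step ((Algebra.lmul k (Matrix n n k)).toLieHom.comp K.incl)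
    (fun x => (s3 _ x.2).map (Algebra.lmul k (Matrix n n k))) ⊤ ⊥ (fun _ _ _ => trivial) (by simp)
  let A : Subalgebra k (Matrix n n k) :=
    { carrier := {a | ∀ w : Matrix n n k, (∀ x ∈ KS R.toFrame U, x * w = 0) →
        ∀ x ∈ KS R.toFrame U, x * (a * w) = 0}
      mul_mem' := fun ha hb w hw x hx => by rw [mul_assoc]; exact ha _ (hb w hw) x hx
      add_mem' := fun ha hb w hw x hx => by
        rw [add_mul, mul_add, ha w hw x hx, hb w hw x hx, add_zero]
      algebraMap_mem' := fun r w hw x hx => by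
        rw [← Algebra.smul_def, mul_smul_comm, hw x hx, smul_zero] }
  have top : ⊤ ≤ A := hR.gen ▸ Algebra.adjoin_le fun a ha w hw x hx => by
    have h1 := hw _ (hJ a ha x hx)
    rw [Ring.lie_def, sub_mul, mul_assoc, hw x hx, mul_zero, zero_sub, neg_eq_zero, mul_assoc] at h1
    exact h1
  refine R.e_ne g (Kol.prime (e := v) v2 fun a => ?_)
  rw [mul_assoc]
  exact top (Algebra.mem_top (x := a)) v (fun x hx => v3 ⟨x, hle hx⟩) _ (e_mem_KS _ hg)

open Two2 in
/-- without unpaired roots the root data exist -/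
theorem rootData (hπ : Rich L π) (R : Pre2 L Φ Λ) (ha : ∀ g, R.neg g ≠ g) :
    Nonempty (RootData 2 L Φ) := by
  refine ⟨{ R.toFrame with
    D := DD R.toFrame
    neg_ne := ha
    cor_nc := fun β => ?_
    br := fun β γ h => ?_
    pow := R.pow
    D_mem := fun α j x hx => ?_
    D_zero := fun α x _ => rfl
    D_one := fun α x _ => rfl
    D_t := fun α d j hj => ?_
    D_neg_two := fun α => ?_
    D_neg := fun α j hj => ?_
    D_e := fun α j κ hκ => ?_
    E_aut := fun α s => E_aut hπ R (ha α) s }⟩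
  · obtain ⟨γ, hγ⟩ := R.cor_nc β (ha β)
    exact ⟨γ, by rw [hγ]; exact one_ne_zero⟩
  · obtain ⟨δ, c, h1, -⟩ := R.br β γ h
    exact ⟨δ, c, h1⟩
  · match j with
    | 0 => exact hx
    | 1 => exact L.lie_mem (R.e_mem α) hx
    | 2 => exact L.smul_mem _ (R.e_mem α)
    | _ + 3 => exact L.zero_mem
  · match j, hj with
    | 2, _ =>
      show R.cf (R.neg α) (diagonal d.1) • R.e α = 0
      rw [R.cf_t, zero_smul]
    | _ + 3, _ => rfl
  · show R.cf (R.neg α) (R.e (R.neg α)) • R.e α = - R.e α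
    rw [R.cf_self, one_smul, neg_self]
  · match j, hj with
    | _ + 3, _ => rfl
  · match j with
    | 0 => exact ⟨1, by simp [DD]⟩
    | 1 => exact ⟨1, by simp [DD]⟩
    | 2 =>
      refine ⟨0, ?_⟩
      show R.cf (R.neg α) (R.e κ) • R.e α = _
      rw [R.cf_ne _ _ (Ne.symm hκ)]; simp
    | _ + 3 => exact ⟨0, by simp [DD]⟩

/-- the trichotomy in characteristic two -/
theorem tricho {t : Submodule k (n → k)} (he : S_eig k 2) (hR : Rich L π) (hD : Diag L t) :
    (L = ⊤ ∧ 2 ∣ Fintype.card n) ∨ (Module.finrank k L = 2 ∧ ¬ IsLieAbelian L) ∨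
      ∃ (Φ : Type u) (_ : Fintype Φ), Nonempty (RootData 2 L Φ) := by
  by_cases h : NoH L t
  · obtain ⟨Φ, _, Λ, _, R, hD'⟩ := exists_pre2 he hR hD h
    by_cases h1 : ∀ g, R.neg g = g → R.e g ^ 2 = 0
    · exact Or.inr (Or.inr ⟨Φ, inferInstance, rootData hR R (unp_nil hR R h1)⟩)
    · push Not at h1
      obtain ⟨g, hg, h2⟩ := h1
      obtain ⟨c, hc⟩ := R.pow g
      exact Or.inr (Or.inl (unp_inv hR R.toFrame hD' hg hc fun e => h2 (by rw [hc, e, zero_smul])))
  · exact Or.inl (heis hR hD h)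

end Pool.Agent.Lib.PRC2
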