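import Pool.Agent.Lib.PRC.All
import Pool.Agent.Lib.PRC2.N1
import Pool.Agent.Lib.PRC2.N4
import Pool.Agent.Lib.PRC2.Unp
import Pool.Agent.Lib.PRC2.Glc
import Pool.Agent.Lib.MP_3a0263_al.R.B_EX2

namespace Pool.Agent.Lib.PRC2

open Matrix Pool.Agent.Lib.MP_3a0263_al Pool.Agent.Lib.MP_3a0263_al.R Pool.Agent.Lib.MP_3a0263_al.Q
  Pool.Agent.Lib.PRC LieAlgebra.SpecialLinear

attribute [local instance 100] LieRing.ofAssociativeRing

universe u

variable {k : Type u} [Field k] [IsAlgClosed k]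

theorem all_st (p : ℕ) [Fact p.Prime] [CharP k p] : All k p :=
  have he := st_eig k p (st_p3 k p)
  ⟨st_setup k, st_diag k p, st_odd1 k p he (st_jm k), st_odd2 k p, st_odd3 k p,
    st_two1 k p he, st_two2 k p, st_refl k p, st_base k, st_nil k p, st_sl2 k p, st_sl3 k p,
    R.st_theta k p (st_fam k), st_good k p, st_mod1 k, st_mod2 k p,
    st_grp k p (st_zar k) (st_kol k), st_tor1 k p (st_zar k), st_tor2 k p⟩

theorem not_psl_of_dim (p : ℕ) [Fact p.Prime] [CharP k p] {g : Type u} [LieRing g] [LieAlgebra k g]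
    (h : HasRichardson k g) (hd : Module.finrank k g ≠ 2) (s : ℕ) (hs : 1 ≤ s) :
    IsEmpty (g ≃ₗ⁅k⁆ (sl (Fin (s * p)) k ⧸ scalarIdeal k (s * p))) := by
  refine ⟨fun e => ?_⟩
  have hp2 : 2 ≤ p := (Fact.out : p.Prime).two_le
  by_cases h2 : 2 < s * p
  · obtain ⟨Y, _, _, _, _, _, hf, -, R, hc, hR⟩ := h
    obtain ⟨m, ρ, π, hr⟩ := exists_ret hf R hc hR
    refine not_ret_psl (p := p) (n := Fin (s * p)) (by simp) (by simpa using h2)
      (e.symm.toLieHom.comp (quotHom _)) (e.symm.surjective.comp (quotHom_surj _))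
      (fun a ha => (quotHom_eq_zero _ a).1 (e.symm.injective ?_)) hr
    rw [map_zero]
    exact ha
  · have h1 := finrank_psl k (s * p) (by positivity) (by simp)
    have h3 : s * p = 2 := by nlinarith
    rw [← e.toLinearEquiv.finrank_eq, h3] at h1
    omega

variable [CharP k 2]

section rich

variable {n : Type} [Fintype n] [DecidableEq n]
  {L : LieSubalgebra k (Matrix n n k)} {π : Matrix n n k →ₗ[k] Matrix n n k}

open N0 in
theorem exists_x2 {Φ : Type u} [Fintype Φ] {m : Φ → Φ → ℤ} {s : Φ → Φ → Φ} {Δ : Finset Φ}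
    {co : Φ → Φ → ℤ} (hR : Rich L π) (R : RootData 2 L Φ) (hm : RefData R.toFrame m s)
    (hB : BaseData R.toFrame Δ co) (hT : Thetas R.toFrame) : Nonempty (X2 L Φ) :=
  ⟨{toComb := comb hm hB
    t := R.t
    e := R.e
    wt := R.wt
    tp := R.tp
    cf := R.cf
    h := R.cor
    t_mem := R.t_mem
    e_mem := R.e_mem
    lie_e := R.lie_e
    decomp := R.decomp
    tp_t := R.tp_t
    tp_e := R.tp_e
    cf_t := R.cf_t
    cf_self := R.cf_self
    cf_ne := R.cf_ne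
    wt_lin := wt_lin hB
    dim := dim (cow hR hB hT)
    br_cf := fun β γ δ h i hi => by
      by_contra hn
      exact h ((R.lie_e_gr (hB.grad i hi) β γ).2.1 δ hn)
    br_tp := fun β γ h => by
      obtain ⟨δ, c, e⟩ := R.br β γ h
      rw [e, map_smul, R.tp_e, smul_zero]
    h_mem := fun α => ⟨1, by rw [one_smul]; exact (R.lie_neg α).symm⟩
    wt_h := fun α _ β => (hm.cast α β).symm
    sq := fun α => ⟨-1, by
      have e : ⁅R.e α, R.e ((comb hm hB).neg α)⁆ = diagonal (R.cor α).1 := R.lie_neg α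
      rw [e, ← lie_skew, R.lie_e, R.wt_cor, mul_neg, mul_one, neg_smul]⟩
    gen := fun α β h1 h2 h3 => absurd (h3 β β 0 h1 h2 fun i _ => by simp) (by simp)
    br_h := R.lie_neg
    wt_hh := fun α β => (hm.cast α β).symm
    wt_inj := R.wt_inj
    wt_ne := R.wt_ne
    good := st_good k 2 n L π hR Φ R Δ co hB hT
    cow := cow hR hB hT
    h_nc := fun β => by
      obtain ⟨γ, hγ⟩ := R.cor_nc β
      rw [wt_lin hB] at hγ
      obtain ⟨j, hj, h⟩ := Finset.exists_ne_zero_of_sum_ne_zero hγ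
      exact ⟨j, hj, right_ne_zero_of_mul h⟩ }⟩

end rich

/-- the three possible outcomes -/
def Out (k : Type u) [Field k] (g : Type u) [LieRing g] [LieAlgebra k g] : Prop :=
  (∃ r : ℕ, 1 ≤ r ∧ Nonempty (g ≃ₗ⁅k⁆ Matrix (Fin (r * 2)) (Fin (r * 2)) k)) ∨
    (Module.finrank k g = 2 ∧ ¬ IsLieAbelian g) ∨
    (Concl k 2 g ∧ ∃ (n : Type) (_ : Fintype n) (_ : DecidableEq n)
      (L : LieSubalgebra k (Matrix n n k)) (π : Matrix n n k →ₗ[k] Matrix n n k) (Φ : Type u)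
      (_ : Fintype Φ), Nonempty (g ≃ₗ⁅k⁆ L) ∧ Rich L π ∧ Nonempty (X2 L Φ))

theorem Out.of_equiv {g g' : Type u} [LieRing g] [LieAlgebra k g] [LieRing g'] [LieAlgebra k g']
    (e : g ≃ₗ⁅k⁆ g') (h : Out k g') : Out k g := by
  rcases h with ⟨r, hr, ⟨e'⟩⟩ | ⟨h1, h2⟩ | ⟨h1, n, _, _, L, π, Φ, _, ⟨e'⟩, h2⟩
  · exact Or.inl ⟨r, hr, ⟨e.trans e'⟩⟩
  · exact Or.inr (Or.inl ⟨e.toLinearEquiv.finrank_eq.trans h1,
      fun h => h2 ((lie_abelian_iff_equiv_lie_abelian e).1 h)⟩)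
  · exact Or.inr (Or.inr ⟨h1.of_equiv e, n, inferInstance, inferInstance, L, π, Φ, inferInstance,
      ⟨e.trans e'⟩, h2⟩)

theorem out_rich {n : Type} [Fintype n] [DecidableEq n] {L : LieSubalgebra k (Matrix n n k)}
    {π : Matrix n n k →ₗ[k] Matrix n n k} (hR : Rich L π) :
    Out k L ∨ ((∃ a b : Matrix n n k, ⁅a, b⁆ = 1) ∧ Nonempty (L ≃ₗ⁅k⁆ sl (Fin 3) k)) := by
  have H := all_st (k := k) 2
  obtain ⟨θ, L', π', t, hθ, hR', hD⟩ := H.diag n L π hR
  let e : L ≃ₗ⁅k⁆ L' :=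
    { toFun := fun x => ⟨θ x.1, (hθ _).1 x.2⟩
      map_add' := fun x y => Subtype.ext (map_add θ x.1 y.1)
      map_smul' := fun c x => Subtype.ext (map_smul θ c x.1)
      map_lie' := fun {x y} => Subtype.ext (by
        show θ ⁅x.1, y.1⁆ = ⁅θ x.1, θ y.1⁆
        simp [Ring.lie_def])
      invFun := fun y => ⟨θ.symm y.1, (hθ _).2 (by simp)⟩
      left_inv := fun x => Subtype.ext (θ.symm_apply_apply x.1)
      right_inv := fun y => Subtype.ext (θ.apply_symm_apply y.1) }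
  rcases tricho (st_eig k 2 (st_p3 k 2)) hR' hD with ⟨rfl, r, hr⟩ | h | ⟨Φ, _, ⟨R⟩⟩
  · have := hR.ne
    have h0 : 0 < Fintype.card n := Fintype.card_pos
    exact Or.inl (Or.inl ⟨r, by omega, ⟨(e.trans LieSubalgebra.topEquiv).trans
      (Matrix.reindexAlgEquiv k k (Fintype.equivFinOfCardEq (hr.trans (mul_comm 2 r)))).toLieEquiv⟩⟩)
  · exact Or.inl (Out.of_equiv e (Or.inr (Or.inl h)))
  obtain ⟨m, s, hm⟩ := H.refl n L' Φ R
  obtain ⟨Δ, co, hB⟩ := H.base n L' Φ R.toFrame m s hm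
  rcases H.nil n L' π' hR' Φ R with hN | ⟨hab, α, hα⟩
  · have hΘ := H.theta n L' π' hR' Φ R hN
    refine Or.inl (Out.of_equiv e (Or.inr (Or.inr ⟨?_, n, inferInstance, inferInstance, L', π', Φ,
      inferInstance, ⟨LieEquiv.refl⟩, hR', exists_x2 hR' R hm hB hΘ⟩)))
    by_cases h1 : (1 : Matrix n n k) ∈ L'
    · obtain ⟨M⟩ := H.mod1 n L' π' hR' h1
      exact concl_of_model H hR' R hB hΘ M fun hc =>
        absurd (one_not_mem hR' hc (c := 1) (by simpa using h1)) one_ne_zero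
    · obtain ⟨M, hM⟩ := H.mod2 n L' π' hR' h1
      exact concl_of_model H hR' R hB hΘ M fun _ => hM
  · obtain ⟨e'⟩ := H.sl3 rfl n L' Φ R Δ co hB α hα
    exact Or.inr ⟨hab, ⟨e.trans e'⟩⟩

variable {g : Type u} [LieRing g] [LieAlgebra k g]

theorem out_of_richardson (h : HasRichardson k g) : Out k g := by
  obtain ⟨n, _, _, ρ, π, hρ, hR⟩ := st_setup k g h
  let e := LieEquiv.ofInjective ρ hρ
  rcases out_rich hR with h1 | ⟨-, ⟨e'⟩⟩
  · exact h1.of_equiv e
  · have hm : ((3 : ℕ) : k) ≠ 0 := fun h => by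
      rw [CharP.cast_eq_zero_iff k 2] at h
      omega
    rcases out_rich (rich_sl hm) with h1 | ⟨⟨a, b, hab⟩, -⟩
    · exact h1.of_equiv (e.trans e')
    · have := congrArg Matrix.trace hab
      rw [Ring.lie_def, Matrix.trace_sub, Matrix.trace_mul_comm, sub_self, Matrix.trace_one,
        Fintype.card_fin] at this
      exact absurd this.symm hm

theorem rich_of_dim_two (h1 : Module.finrank k g = 2) (h2 : ¬ IsLieAbelian g) :
    HasRichardson k g := by
  obtain ⟨x, y, h0⟩ : ∃ x y : g, ⁅x, y⁆ ≠ 0 := by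
    by_contra hc
    push Not at hc
    exact h2 ⟨hc⟩
  have hl : LinearIndependent k ![x, y] := LinearIndependent.pair_iff.2 fun s t h => by
    have a1 := congrArg (fun z => ⁅z, y⁆) h
    have a2 := congrArg (fun z => ⁅x, z⁆) h
    simp only [add_lie, lie_add, smul_lie, lie_smul, lie_self, smul_zero, add_zero, zero_add,
      zero_lie, lie_zero, smul_eq_zero, h0, or_false] at a1 a2
    exact ⟨a1, a2⟩
  have h3 : ⁅x, y⁆ ∈ Submodule.span k (Set.range ![x, y]) := by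
    rw [hl.span_eq_top_of_card_eq_finrank (by simp [h1])]; trivial
  rw [Matrix.range_cons_cons_empty, Submodule.mem_span_pair] at h3
  obtain ⟨a, b, hab⟩ := h3
  have a1 : ⁅x, ⁅x, y⁆⁆ = b • ⁅x, y⁆ := by
    conv_lhs => rw [← hab, lie_add, lie_smul, lie_smul, lie_self, smul_zero, zero_add]
  have a2 : ⁅y, ⁅x, y⁆⁆ = -a • ⁅x, y⁆ := by
    conv_lhs => rw [← hab, lie_add, lie_smul, lie_smul, lie_self, smul_zero, add_zero, ← lie_skew,
      smul_neg, ← neg_smul]
  by_cases hb : b = 0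
  · have ha : -a ≠ 0 := fun e => h0 (by rw [← hab, hb, neg_eq_zero.1 e]; simp)
    exact st_ex2 k 2 rfl g ((-a)⁻¹ • y) _ h1 h0
      (by rw [smul_lie, a2, smul_smul, inv_mul_cancel₀ ha, one_smul])
  · exact st_ex2 k 2 rfl g (b⁻¹ • x) _ h1 h0
      (by rw [smul_lie, a1, smul_smul, inv_mul_cancel₀ hb, one_smul])

theorem three_le_of_croot {p : ℕ} {n : Type} [Fintype n] [DecidableEq n]
    {L : LieSubalgebra k (Matrix n n k)} {Φ : Type u} [Fintype Φ] (R : CRoot p L Φ)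
    (e : g ≃ₗ⁅k⁆ L) (h : ¬ IsLieAbelian g) : 3 ≤ Module.finrank k g := by
  obtain ⟨x, y, h0⟩ : ∃ x y : g, ⁅x, y⁆ ≠ 0 := by
    by_contra hc
    push Not at hc
    exact h ⟨hc⟩
  rw [e.toLinearEquiv.finrank_eq]
  exact R.three_le (e x).2 (e y).2 fun h => h0 (e.injective (by
    rw [LieHom.map_lie, map_zero]; exact Subtype.ext h))

theorem strong_of_simple (hs : LieAlgebra.IsSimple k g) (hC : InClassC k 2 g) : Strong k g := by
  rcases out_of_richardson ((simple_iff k 2 g hs).2 hC) with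
    ⟨r, hr, ⟨e⟩⟩ | ⟨h1, h2⟩ | ⟨-, n, _, _, L, π, Φ, _, ⟨e⟩, hR, ⟨R⟩⟩
  · have := isSimple_of_equiv e hs
    have h0 : Nonempty (Fin (r * 2)) := ⟨⟨0, by omega⟩⟩
    have h1 : (1 : Matrix (Fin (r * 2)) (Fin (r * 2)) k) ∈ LieAlgebra.center k _ := lie_one'
    rw [LieAlgebra.center_eq_bot, LieSubmodule.mem_bot] at h1
    exact absurd h1 one_ne_zero
  · obtain ⟨⟨_, _, _, _, r, a1, a2, a3, a4, -⟩, -⟩ := hC
    obtain ⟨L, e, Φ, _, R, -⟩ := exists_croot (st_group k 2) r a1 a2 a3 a4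
    have := three_le_of_croot R e h2
    omega
  · exact (R.strong hR (isSimple_of_equiv e hs)).of_equiv e

/-- the classification in characteristic two -/
theorem classification_two (g : Type u) [LieRing g] [LieAlgebra k g] [FiniteDimensional k g] :
    HasRichardson k g ↔ (InClassC k 2 g ∧
      ((∃ r : ℕ, 1 ≤ r ∧ Nonempty (g ≃ₗ⁅k⁆ Matrix (Fin (r * 2)) (Fin (r * 2)) k)) ∨
        (Module.finrank k (LieAlgebra.center k g) ≤ 1 ∧ ∃ S : Set (LieIdeal k g), sSupIndep S ∧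
          IsCompl (LieAlgebra.center k g) (sSup S) ∧
          ∀ I ∈ S, LieAlgebra.IsSimple k I ∧ InClassC k 2 I))) ∨
      (Module.finrank k g = 2 ∧ ¬ IsLieAbelian g) := by
  constructor
  · intro h
    rcases out_of_richardson h with
      ⟨r, hr, ⟨e⟩⟩ | h1 | ⟨h1, n, _, _, L, π, Φ, _, ⟨e⟩, hR, ⟨R⟩⟩
    · refine Or.inl ⟨⟨(concl_gl k 2 _ (by omega)).of_equiv e, not_psl_of_dim 2 h ?_⟩,
        Or.inl ⟨r, hr, ⟨e⟩⟩⟩
      rw [e.toLinearEquiv.finrank_eq, Module.finrank_matrix, Fintype.card_fin, Module.finrank_self]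
      nlinarith
    · exact Or.inr h1
    have hd : Module.finrank k g ≠ 2 := fun h2 => by
      by_cases h3 : IsLieAbelian g
      · have h4 := center_le_one e hR
        rw [(LieAlgebra.isLieAbelian_iff_center_eq_top k g).1 h3,
          LieIdeal.topEquiv.toLinearEquiv.finrank_eq] at h4
        omega
      · have := three_le_of_croot R.toCRoot e h3
        omega
    refine Or.inl ⟨⟨h1, not_psl_of_dim 2 h hd⟩, ?_⟩
    by_cases hns : NS k R.toComb
    · obtain ⟨S, s1, s2, s3⟩ := nonsing R hns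
      have t0 : ∀ T, idealIso e (sSup T) = sSup (idealIso e '' T) := fun T => by
        rw [OrderIso.map_sSup, sSup_image]
      have t1 : sSupIndep (idealIso e '' S) := by
        rintro _ ⟨I, hI, rfl⟩
        rw [← Set.image_singleton, ← Set.image_sdiff (idealIso e).injective, ← t0]
        exact (s1 hI).map_orderIso _
      have t2 : IsCompl (LieAlgebra.center k g) (sSup (idealIso e '' S)) := by
        rw [← idealIso_center e, ← t0]
        exact (idealIso e).isCompl s2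
      refine Or.inr ⟨center_le_one e hR, idealIso e '' S, t1, t2, ?_⟩
      rintro _ ⟨I, hI, rfl⟩
      have hs := isSimple_of_equiv (idealEquiv e I).symm (s3 I hI)
      exact ⟨hs, (simple_iff k 2 _ hs).1
        (all_res k g h _ _ (compl_of_indep t1 t2 ⟨I, hI, rfl⟩ hs))⟩
    · obtain ⟨N, v, hv, r, hr⟩ := sing R.goodAll R.odd hns
      obtain ⟨φ, H⟩ := R.exists_gl hv
      obtain ⟨e'⟩ := all_n4 k 2 n L π hR (N + 3) (by omega) ⟨r, hr⟩ φ H
      refine Or.inl ⟨r, by omega, ?_⟩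
      rw [mul_comm, ← hr]
      exact ⟨e.trans e'⟩
  · rintro (⟨-, ⟨r, hr, ⟨e⟩⟩ | ⟨hc, S, s1, s2, s3⟩⟩ | ⟨h1, h2⟩)
    · exact rich_of_equiv e (rich_gl _ (by omega))
    · exact all_prod k g hc S s1 s2 fun I hI =>
        ⟨(s3 I hI).1, strong_of_simple (s3 I hI).1 (s3 I hI).2⟩
    · exact rich_of_dim_two h1 h2

end Pool.Agent.Lib.PRC2
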