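import Pool.Agent.Lib.PRC.B_BR
import Pool.Agent.Lib.PRC.B_N2

namespace Pool.Agent.Lib.PRC2

open Matrix Pool.Agent.Lib.MP_3a0263_al Pool.Agent.Lib.MP_3a0263_al.R Pool.Agent.Lib.MP_3a0263_al.Q
  Pool.Agent.Lib.PRC

attribute [local instance 100] LieRing.ofAssociativeRing

universe u

section comb

variable {Φ : Type u} [Fintype Φ] {C : Comb Φ}

/-- all coefficients odd or zero: simply laced -/
theorem laced (hg : GoodAll C 2) {a x : Φ} (h1 : x ≠ a) (h2 : x ≠ C.neg a) : |C.m a x| ≤ 1 := by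
  by_contra h
  have inj : ∀ i {b y : Φ}, C.s i y = b → y = C.s i b := fun i b y e => by rw [← e, C1.s_s]
  have key : ∀ i b, (∃ y, y ≠ b ∧ y ≠ C.neg b ∧ ¬ |C.m b y| ≤ 1) →
      ∃ y, y ≠ C.s i b ∧ y ≠ C.neg (C.s i b) ∧ ¬ |C.m (C.s i b) y| ≤ 1 := fun i b ⟨y, y1, y2, y3⟩ =>
    ⟨C.s i y, fun e => y1 (by rw [inj i e, C1.s_s]),
      fun e => y2 (by rw [inj i e, C1.s_neg, C1.s_s]), by rwa [C1.m_s_s]⟩
  obtain ⟨i, hi, e⟩ := C1.exists_simple C (fun b => ∃ y, y ≠ b ∧ y ≠ C.neg b ∧ ¬ |C.m b y| ≤ 1)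
    (fun i _ b => propext ⟨fun h => by simpa only [C1.s_s] using key i _ h, key i b⟩) a
  obtain ⟨y, y2, hy⟩ : ∃ y, y ≠ C.neg i ∧ C.m i y ≤ -2 := by
    obtain ⟨y, y1, y2, y3⟩ := e ▸ (⟨x, h1, h2, h⟩ : ∃ y, y ≠ a ∧ y ≠ C.neg a ∧ ¬ |C.m a y| ≤ 1)
    rcases le_total 0 (C.m i y) with h0 | h0
    · rw [abs_of_nonneg h0] at y3
      exact ⟨C.neg y, fun e => y1 (by rw [← C1.neg_neg C y, e, C1.neg_neg]),
        by rw [C1.m_neg]; omega⟩
    · rw [abs_of_nonpos h0] at y3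
      exact ⟨y, y2, by omega⟩
  obtain ⟨y1, e1⟩ := C1.add_root C (a := i) (b := y) (by omega) y2
  obtain ⟨z, e2⟩ : ∃ z, ∀ j ∈ C.Δ, C.co z j = C.co y j + 2 * C.co i j := by
    by_cases h3 : C.m i y = -2
    · exact ⟨C.s i y, fun j hj => by rw [C.refl i y j hj, h3]; ring⟩
    · have m1 : C.m i y1 = C.m i y + 2 := by
        rw [C1.m_comb C i 1 1 (a := y) (b := i) fun j hj => by rw [e1 j hj]; ring, C.two]
        ring
      obtain ⟨z, hz⟩ := C1.add_root C (a := i) (b := y1) (by omega) fun e => by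
        obtain ⟨j, hj, h0⟩ := C1.co_ne C i
        rcases C.red i y 1 (-2) one_ne_zero fun l hl => by
          have := e1 l hl
          rw [e, C.co_neg i l hl] at this
          omega with h4 | h4
        · rw [h4, C.two] at hy; omega
        · exact y2 h4
      exact ⟨z, fun j hj => by rw [hz j hj, e1 j hj]; ring⟩
  have c1 := e1 i hi
  have c2 := e2 i hi
  rw [C.self i hi] at c1 c2
  have g0 := hg y i hi
  have g1 := hg y1 i hi
  have g2 := hg z i hi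
  have c0 : C.co y i = -1 := by push_cast at g0 g1 g2; omega
  have p1 := C1.pos_of_co C (b := z) hi (by omega)
  have p2 := C1.pos_of_co C (b := C.neg y) hi (by rw [C.co_neg y i hi]; omega)
  refine y2 (C.inj _ _ fun j hj => ?_)
  rw [C.co_neg i j hj]
  by_cases hji : j = i
  · rw [hji, c0, C.self i hi]
  · have a1 := p1 j hj
    have a2 := p2 j hj
    rw [e2 j hj, C.ne i hi j hj (Ne.symm hji)] at a1
    rw [C.co_neg y j hj] at a2
    rw [C.ne i hi j hj (Ne.symm hji)]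
    omega

theorem sum_m (hg : GoodAll C 2) {a b c : Φ} (h : L0.IsSum C a b c) : C.m a b = -1 := by
  obtain ⟨b1, b2⟩ := BR.ne_of_sum C h
  obtain ⟨c1, c2⟩ := BR.ne_of_str C b1 b2 (x := c) (j := 1) fun i hi => by rw [h i hi]; ring
  have h1 := abs_le.1 (laced hg b1 b2)
  have h2 := abs_le.1 (laced hg c1 c2)
  rw [C1.m_comb C a 1 1 (a := a) (b := b) (c := c) fun i hi => by rw [h i hi]; ring, C.two] at h2
  omega

variable {n : ℕ} {M : Matrix (Fin n) (Fin n) ℤ} {v : Fin n → Φ}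

theorem no_double (hg : GoodAll C 2) (h : N2.On C M v) {i j : Fin n} (hij : i ≠ j)
    (h2 : M i j ≤ -2) : False := by
  have := abs_le.1 (laced hg (a := v i) (x := v j) (fun e => hij (h.inj e).symm) fun e =>
    C1.not_pos_neg C (C1.pos_simple C (h.mem i)) (e ▸ C1.pos_simple C (h.mem j)))
  rw [h.car] at this
  omega

theorem no_branch (hg : GoodAll C 2) (h : N2.On C M v) {i a b c : Fin n} (ha : a ≠ i) (hb : b ≠ i)
    (hc : c ≠ i) (h1 : M a i = -1) (h2 : M b i = -1) (h3 : M c i = -1) (h4 : M i a = -1)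
    (h5 : M i b = -1) (h6 : M i c = -1) (h7 : M b a = 0) (h8 : M c a = 0) (h9 : M c b = 0) :
    False := by
  have h0 : M i i = 2 := by rw [← h.car, C.two]
  have := hg (C.s (v i) (C.s (v c) (C.s (v b) (C.s (v a) (v i))))) (v i) (h.mem i)
  simp only [C.refl _ _ _ (h.mem i), C1.m_s, h.car, h.co, if_neg ha.symm, if_neg hb.symm,
    if_neg hc.symm, h1, h2, h3, h4, h5, h6, h7, h8, h9, h0, if_true] at this
  norm_num at this

theorem pull {D : Finset Φ} (hD : D ⊆ C.Δ) (ho : ∀ i ∈ D, ∀ j ∈ C.Δ, j ∉ D → C.m i j = 0)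
    {i0 : Φ} (hi : i0 ∈ D) (h : IsTypeOn D C.m M) : ∃ v : Fin n → Φ, N2.On C M v ∧ ∃ i, v i = i0 := by
  obtain ⟨v, h1, h2, h3⟩ := h
  exact ⟨v, ⟨h1, fun i => hD ((h2 _).2 ⟨i, rfl⟩), h3, fun j hj hn i =>
    ho _ ((h2 _).2 ⟨i, rfl⟩) j hj fun hj' => hn ((h2 j).1 hj')⟩, (h2 i0).1 hi⟩

/-- every component has type `A N` with `N` at least two -/
theorem compA (hg : GoodAll C 2) (hn : ∀ β, ∃ j ∈ C.Δ, ¬ (2 : ℤ) ∣ C.m β j) {i0 : Φ}
    (h0 : i0 ∈ C.Δ) : ∃ (N : ℕ) (v : Fin (N + 2) → Φ), TyA C (N + 2) v ∧ ∃ i, v i = i0 := by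
  obtain ⟨D, hD, hi, ho, hc⟩ := N2.component C h0
  rcases hc with ⟨n, h1, h⟩ | ⟨n, h1, h⟩ | ⟨n, h1, h⟩ | ⟨n, h1, h⟩ | h | h | h | h | h <;>
    obtain ⟨v, hv, hi⟩ := pull hD ho hi h
  · by_cases h2 : n = 1
    · subst h2
      obtain ⟨j, hj, h3⟩ := hn (v 0)
      refine absurd ?_ h3
      by_cases h4 : j ∈ Set.range v
      · obtain ⟨l, rfl⟩ := h4
        rw [Subsingleton.elim l 0, C.two]
      · rw [hv.out j hj h4]; exact dvd_zero _
    · obtain ⟨N, rfl⟩ : ∃ N, n = N + 2 := ⟨n - 2, by omega⟩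
      exact ⟨N, v, ⟨hv.inj, hv.mem, hv.car, hv.out⟩, hi⟩
  · obtain ⟨N, rfl⟩ : ∃ N, n = N + 2 := ⟨n - 2, by omega⟩
    refine (no_double hg hv (i := ⟨N, by omega⟩) (j := ⟨N + 1, by omega⟩) (by simp) ?_).elim
    simp [CartanMatrix.B]
  · obtain ⟨N, rfl⟩ : ∃ N, n = N + 3 := ⟨n - 3, by omega⟩
    refine (no_double hg hv (i := ⟨N + 2, by omega⟩) (j := ⟨N + 1, by omega⟩) (by simp) ?_).elim
    simp [CartanMatrix.C]
  · obtain ⟨N, rfl⟩ : ∃ N, n = N + 4 := ⟨n - 4, by omega⟩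
    refine (no_branch hg hv (i := ⟨N + 1, by omega⟩) (a := ⟨N, by omega⟩) (b := ⟨N + 2, by omega⟩)
      (c := ⟨N + 3, by omega⟩) (by simp) (by simp) (by simp) ?_ ?_ ?_ ?_ ?_ ?_ ?_ ?_ ?_).elim <;>
      simp only [CartanMatrix.D, Matrix.of_apply, Fin.ext_iff] <;> split_ifs <;>
      first | omega | grind
  · exact (no_branch hg hv (i := 3) (a := 1) (b := 2) (c := 4) (by decide) (by decide) (by decide)
      rfl rfl rfl rfl rfl rfl rfl rfl rfl).elim
  · exact (no_branch hg hv (i := 3) (a := 1) (b := 2) (c := 4) (by decide) (by decide) (by decide)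
      rfl rfl rfl rfl rfl rfl rfl rfl rfl).elim
  · exact (no_branch hg hv (i := 3) (a := 1) (b := 2) (c := 4) (by decide) (by decide) (by decide)
      rfl rfl rfl rfl rfl rfl rfl rfl rfl).elim
  · exact (no_double hg hv (i := 1) (j := 2) (by decide) (by decide)).elim
  · exact (no_double hg hv (i := 0) (j := 1) (by decide) (by decide)).elim

/-- the singular case has a component of type `A (2 r - 1)` -/
theorem sing {k : Type u} [Field k] [CharP k 2] (hg : GoodAll C 2)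
    (hn : ∀ β, ∃ j ∈ C.Δ, ¬ (2 : ℤ) ∣ C.m β j) (hns : ¬ NS k C) :
    ∃ (N : ℕ) (v : Fin (N + 2) → Φ), TyA C (N + 2) v ∧ 2 ∣ N + 3 := by
  unfold NS at hns
  push Not at hns
  obtain ⟨x, hx, i0, hi0, h0⟩ := hns
  obtain ⟨N, v, T, i, rfl⟩ := compA hg hn hi0
  have hv : N2.On C (CartanMatrix.A (N + 2)) v := ⟨T.inj, T.mem, T.car, T.out⟩
  refine ⟨N, v, T, (CharP.cast_eq_zero_iff k 2 (N + 3)).1
    (N2.typeA (by omega) (y := fun i => x (v i)) (fun j => ?_) fun e => h0 (congrFun e i))⟩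
  have := hx (v j) (hv.mem j)
  rw [hv.sum _ fun a ha hn => by
    rw [C1.m_zero_symm C (hv.out a ha hn j), Int.cast_zero, mul_zero]] at this
  simpa only [hv.car] using this

end comb

variable {k : Type u} [Field k] {n : Type} [Fintype n] [DecidableEq n]

/-- root data of a Lie algebra with the Richardson property in characteristic two -/
structure X2 (L : LieSubalgebra k (Matrix n n k)) (Φ : Type u) [Fintype Φ]
    extends CRoot 0 L Φ where
  br_h : ∀ α, ⁅e α, e (neg α)⁆ = diagonal (h α).1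
  wt_hh : ∀ α β, wt β (h α) = (m α β : k)
  wt_inj : ∀ β γ, wt β = wt γ → γ = β ∨ γ = neg β
  wt_ne : ∀ β, wt β ≠ 0
  good : ∀ β, ∀ i ∈ Δ, co β i ≠ 0 → ¬ ((2 : ℕ) : ℤ) ∣ co β i
  cow : ∀ i ∈ Δ, ∃ d : t, wt i d = 1 ∧ ∀ j ∈ Δ, j ≠ i → wt j d = 0
  h_nc : ∀ β, ∃ j ∈ Δ, wt j (h β) ≠ 0

variable {L : LieSubalgebra k (Matrix n n k)} {Φ : Type u} [Fintype Φ]

/-- simple root vectors in an enumeration -/
def X2.xe (R : X2 L Φ) {ι : Type} (v : ι → Φ) (i : ι) : L := ⟨R.e (v i), R.e_mem _⟩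

/-- their opposites -/
def X2.xf (R : X2 L Φ) {ι : Type} (v : ι → Φ) (i : ι) : L := ⟨R.e (R.neg (v i)), R.e_mem _⟩

/-- the coroots -/
def X2.xh (R : X2 L Φ) {ι : Type} (v : ι → Φ) (i : ι) : L :=
  ⟨diagonal (R.h (v i)).1, R.t_mem _⟩

/-- the same data with every root vector replaced by the opposite one -/
def X2.opp (R : X2 L Φ) : X2 L Φ where
  toComb := R.toComb
  t := R.t
  e β := R.e (R.neg β)
  wt β := R.wt (R.neg β)
  tp := R.tp
  cf β := R.cf (R.neg β)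
  h β := R.h (R.neg β)
  t_mem := R.t_mem
  e_mem β := R.e_mem _
  lie_e d β := R.lie_e d _
  decomp x hx := by
    conv_lhs => rw [R.decomp x hx]
    rw [C1.sum_neg R.toComb fun β => R.cf β x • R.e β]
  tp_t := R.tp_t
  tp_e β := R.tp_e _
  cf_t β d := R.cf_t _ d
  cf_self β := R.cf_self _
  cf_ne β γ h := R.cf_ne _ _ fun e => h (by
    rw [← C1.neg_neg R.toComb β, e, C1.neg_neg])
  wt_lin β d := by
    rw [L0.wt_neg R.toCRoot, R.wt_lin, ← Finset.sum_neg_distrib]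
    exact Finset.sum_congr rfl fun i _ => by rw [L0.wt_neg R.toCRoot, mul_neg]
  dim := R.dim
  br_cf β γ δ h i hi := by
    have := R.br_cf _ _ _ h i hi
    rw [R.co_neg _ i hi, R.co_neg _ i hi, R.co_neg _ i hi] at this
    omega
  br_tp β γ h := R.br_tp _ _ fun e => h (by
    rw [← C1.neg_neg R.toComb γ, e, C1.neg_neg])
  h_mem α := R.h_mem _
  wt_h α _ β := by rw [R.wt_hh, C1.m_neg, C1.m_neg_left, neg_neg]
  sq α := R.sq _
  gen α β h1 h2 h3 := absurd (h3 β β 0 h1 h2 fun i _ => by simp) (by simp)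
  br_h α := R.br_h _
  wt_hh α β := by rw [R.wt_hh, C1.m_neg, C1.m_neg_left, neg_neg]
  wt_inj β γ h := (R.wt_inj _ _ h).imp
    (fun e => by rw [← C1.neg_neg R.toComb γ, e, C1.neg_neg])
    fun e => by rw [← C1.neg_neg R.toComb γ, e, C1.neg_neg]
  wt_ne β := R.wt_ne _
  good := R.good
  cow i hi := by
    obtain ⟨d, h1, h2⟩ := R.cow i hi
    refine ⟨-d, ?_, fun j hj hji => ?_⟩
    · rw [L0.wt_neg R.toCRoot, map_neg, neg_neg, h1]
    · rw [L0.wt_neg R.toCRoot, map_neg, neg_neg, h2 j hj hji]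
  h_nc β := by
    obtain ⟨j, hj, h⟩ := R.h_nc (R.neg β)
    exact ⟨j, hj, by rwa [L0.wt_neg R.toCRoot, neg_ne_zero]⟩

theorem X2.opp_e (R : X2 L Φ) (β : Φ) : R.opp.e β = R.e (R.neg β) := rfl

theorem X2.goodAll (R : X2 L Φ) : GoodAll R.toComb 2 := R.good

theorem X2.h_ne (R : X2 L Φ) (β : Φ) : R.h β ≠ 0 := fun h => by
  obtain ⟨j, -, hj⟩ := R.h_nc β
  exact hj (by rw [h, map_zero])

theorem X2.odd [CharP k 2] (R : X2 L Φ) (β : Φ) : ∃ j ∈ R.Δ, ¬ (2 : ℤ) ∣ R.m β j := by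
  obtain ⟨j, hj, h⟩ := R.h_nc β
  rw [R.wt_hh] at h
  exact ⟨j, hj, fun e => h ((CharP.intCast_eq_zero_iff k 2 _).2 e)⟩

/-- brackets of root vectors do not vanish -/
theorem X2.br (R : X2 L Φ) (a b c : Φ) (h : L0.IsSum R.toComb a b c) : ⁅R.e a, R.e b⁆ ≠ 0 := by
  intro h0
  have hm := sum_m R.goodAll h
  have h1 : ⁅R.e (R.neg a), R.e b⁆ = 0 := L0.br_zero R.toCRoot
    (by rw [C1.neg_neg]; exact (BR.ne_of_sum _ h).1) fun δ hδ => by
      have := sum_m R.goodAll hδ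
      rw [C1.m_neg_left] at this
      omega
  have h2 := R.lie_e (R.h a) b
  rw [← R.br_h, lie_lie, h0, h1, R.wt_hh, hm, lie_zero, lie_zero, sub_zero] at h2
  exact L0.e_ne R.toCRoot b (by simpa using h2)

/-- positive root vectors are generated by the simple ones -/
theorem X2.gen' (R : X2 L Φ) (D : Set Φ) (M : LieSubalgebra k (Matrix n n k))
    (hM : ∀ i ∈ R.Δ, i ∈ D → R.e i ∈ M) :
    ∀ β, C1.Pos R.toComb β → (∀ j ∈ R.Δ, j ∉ D → R.co β j = 0) → R.e β ∈ M := by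
  suffices H : ∀ (N : ℕ) β, C1.ht R.toComb β ≤ N → C1.Pos R.toComb β →
      (∀ j ∈ R.Δ, j ∉ D → R.co β j = 0) → R.e β ∈ M from
    fun β => H (C1.ht R.toComb β).toNat β (by omega)
  intro N
  induction N with
  | zero => exact fun β h hβ => absurd (C1.ht_pos _ hβ) (by omega)
  | succ N ih =>
    intro β h hβ hD
    obtain ⟨i, hi, h1, h2⟩ := C1.exists_m_pos _ hβ
    have hiD : i ∈ D := by_contra fun hn => h1.ne' (hD i hi hn)
    by_cases e : β = i
    · exact e ▸ hM i hi hiD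
    obtain ⟨γ, hγ⟩ := C1.sub_root _ h2 e
    obtain ⟨j, hj, hji, h3⟩ := C1.exists_co_pos _ hi hβ e
    have hs : L0.IsSum R.toComb i γ β := fun l hl => by rw [hγ l hl]; ring
    have h4 := C1.ht_comb R.toComb 1 1 (a := i) (b := γ) (c := β) fun l hl => by rw [hγ l hl]; ring
    rw [C1.ht_simple _ hi] at h4
    have h5 := ih γ (by push_cast at h; omega)
      (C1.pos_of_co _ hj (by rw [hγ j hj, R.ne i hi j hj hji.symm]; omega)) fun l hl hn => by
        rw [hγ l hl, hD l hl hn, R.ne i hi l hl fun e => hn (e ▸ hiD), sub_zero]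
    have h6 := L0.br_sum R.toCRoot hs
    have h7 : R.cf β ⁅R.e i, R.e γ⁆ ≠ 0 := fun h0 =>
      R.br i γ β hs (by rw [h6, h0, zero_smul])
    have h8 := M.smul_mem (R.cf β ⁅R.e i, R.e γ⁆)⁻¹ (M.lie_mem (hM i hi hiD) h5)
    rwa [h6, map_smul, R.cf_self, smul_eq_mul, mul_one, smul_smul, inv_mul_cancel₀ h7,
      one_smul] at h8

end Pool.Agent.Lib.PRC2
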