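import Pool.Agent.Lib.PRC2.Two1
import Pool.Agent.Lib.MP_3a0263_al.R.Fr

namespace Pool.Agent.Lib.PRC2

open Matrix Pool.Agent.Lib.MP_3a0263_al Pool.Agent.Lib.MP_3a0263_al.R
  Pool.Agent.Lib.MP_3a0263_al.R.Two1

attribute [local instance 100] LieRing.ofAssociativeRing

universe u

variable {k : Type u} [Field k] [CharP k 2] {n : Type} [Fintype n] [DecidableEq n]
variable {L : LieSubalgebra k (Matrix n n k)} {π : Matrix n n k →ₗ[k] Matrix n n k}
variable {t : Submodule k (n → k)}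

theorem cast_one {a : ℤ} (h : (a : k) ≠ 0) : (a : k) = 1 := by
  have h1 : ¬ (2 : ℤ) ∣ a := fun e => h ((CharP.intCast_eq_zero_iff k 2 a).2 e)
  have h2 : ((a - 1 : ℤ) : k) = 0 := (CharP.intCast_eq_zero_iff k 2 _).2 (by push_cast; omega)
  push_cast at h2
  exact sub_eq_zero.1 h2

theorem wt_add_self (γ : t →ₗ[k] k) : γ + γ = 0 := by
  ext d; simp [CharTwo.add_self_eq_zero]

theorem null_ad {x : Matrix n n k} (hx : Null x) (w : Matrix n n k) : ⁅x, ⁅x, w⁆⁆ = 0 := by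
  obtain ⟨c, hc⟩ := hx
  rw [← adm_apply, ← adm_apply, ← Module.End.mul_apply, ← pow_two, adm_pow_p, hc, smul_lie,
    one_lie', smul_zero]

/-- if the kernel of a weight acts by scalars there is no other weight -/
theorem one_weight (hD : Diag L t) {γ : t →ₗ[k] k} (hγ : γ ≠ 0) {x : Matrix n n k}
    (hx : x ∈ wsp L t γ) (x0 : x ≠ 0) (hk : ∀ d : t, γ d = 0 → ∃ c : k, diagonal d.1 = c • 1)
    {β : t →ₗ[k] k} {w : Matrix n n k} (hw : w ∈ wsp L t β) (w0 : w ≠ 0) : β = 0 ∨ β = γ := by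
  obtain ⟨h, ν, hν, e⟩ := hD.toral γ hγ
  obtain ⟨a, ha⟩ := exists_lift hν hx.2 x0
  obtain ⟨b, hb⟩ := exists_lift hν hw.2 w0
  have h1 : γ h = 1 := ha ▸ cast_one (ha ▸ e)
  have h2 : ∀ d, β d = γ d * β h := fun d => by
    obtain ⟨c, hc⟩ := hk (d - γ d • h) (by rw [map_sub, map_smul, h1]; simp)
    have h3 := hw.2 (d - γ d • h)
    rw [hc, smul_lie, one_lie', smul_zero, map_sub, map_smul] at h3
    exact sub_eq_zero.1 ((smul_eq_zero.1 h3.symm).resolve_right w0)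
  by_cases b0 : (b : k) = 0
  · exact Or.inl (LinearMap.ext fun d => by rw [h2, hb, b0, mul_zero]; rfl)
  · exact Or.inr (LinearMap.ext fun d => by rw [h2, hb, cast_one b0, mul_one])

theorem heis_aux (hR : Rich L π) (hD : Diag L t) {γ : t →ₗ[k] k} (hγ : γ ≠ 0)
    {x y : Matrix n n k} (hx : x ∈ wsp L t γ) (hy : y ∈ wsp L t γ) (nx : Null x) (ny : Null y)
    (h : ⁅x, y⁆ = 1) : L = ⊤ := by
  have := hR.ne
  have h' : ⁅y, x⁆ = -1 := by rw [← lie_skew, h]
  have one : (1 : Matrix n n k) ∈ L := h ▸ L.lie_mem hx.1 hy.1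
  have x0 : x ≠ 0 := fun e => one_ne_zero (by rw [← h, e, zero_lie])
  have y0 : y ≠ 0 := fun e => one_ne_zero (by rw [← h, e, lie_zero])
  have mul : ∀ a b c : Matrix n n k, ⁅a, b * c⁆ = ⁅a, b⁆ * c + b * ⁅a, c⁆ := fun a b c => by
    simp only [Ring.lie_def]; noncomm_ring
  have ld : ∀ {w : Matrix n n k}, w ∈ wsp L t γ → ∀ d : t, ⁅w, diagonal d.1⁆ = -(γ d • w) :=
    fun hw d => by rw [← lie_skew, hw.2 d]
  have dia : ∀ {a : Matrix n n k}, a ∈ wA t (γ + γ) → ∃ d : t, π a = diagonal d.1 := fun ha =>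
    hD.zero (hR.pi_wA hD (wt_add_self γ ▸ ha))
  have s2 : ∀ c ∈ L, ⁅x, c⁆ = 0 → c = ⁅x, π (c * y)⁆ := fun c hc h1 => by
    rw [← hR.equi x hx.1, mul, h1, h, zero_mul, zero_add, mul_one, hR.left c hc]
  have s3 : ∀ d : t, γ d = 0 → ∃ c : k, diagonal d.1 = c • 1 := fun d hd => by
    obtain ⟨d', hd'⟩ := dia (a := diagonal d.1 * (x * y)) (by
      simpa using wA_mul (diagonal_mem_wA d.1) (wA_mul hx.2 hy.2))
    have e1 := hR.equi y hy.1 (diagonal d.1 * (x * y))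
    rw [hd', ld hy, mul, ld hy, hd, mul, h', lie_self] at e1
    simp only [zero_smul, neg_zero, zero_mul, zero_add, mul_zero, add_zero, neg_mul, one_mul,
      mul_neg, map_neg, neg_inj] at e1
    have e2 := s2 _ (hD.mem _ d.2) (by rw [ld hx, hd]; simp)
    exact ⟨γ d', by rw [e2, e1, lie_smul, h]⟩
  have s4 : ∀ {z : Matrix n n k}, z ∈ wsp L t γ → z ≠ 0 → Null z → ∀ w ∈ wsp L t γ,
      ∃ c : k, ⁅z, w⁆ = c • 1 := fun {z} hz z0 nz w hw => by
    obtain ⟨d, hd⟩ := hD.zero (wt_add_self γ ▸ wsp_lie hz hw)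
    have e := null_ad nz w
    rw [hd, ld hz, neg_eq_zero] at e
    rw [hd]
    exact s3 d ((smul_eq_zero.1 e).resolve_right z0)
  have s5 : ∀ w ∈ wsp L t γ, ∃ s r : k, w = s • y - r • x := fun w hw => by
    obtain ⟨s, hs⟩ := s4 hx x0 nx w hw
    obtain ⟨r, hr⟩ := s4 hy y0 ny w hw
    have m : w - (s • y - r • x) ∈ wsp L t γ :=
      sub_mem hw (sub_mem (Submodule.smul_mem _ _ hy) (Submodule.smul_mem _ _ hx))
    obtain ⟨d, hd⟩ := dia (wA_mul m.2 hy.2)
    have e1 := s2 _ m.1 (by rw [lie_sub, lie_sub, lie_smul, lie_smul, hs, h, lie_self]; simp)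
    rw [hd, ld hx] at e1
    have e2 : ⁅y, w - (s • y - r • x)⁆ = 0 := by
      rw [lie_sub, lie_sub, lie_smul, lie_smul, hr, h', lie_self]; simp
    rw [e1, lie_neg, lie_smul, h', smul_neg, neg_neg, smul_eq_zero] at e2
    rw [e2.resolve_right one_ne_zero, zero_smul, neg_zero] at e1
    exact ⟨s, r, sub_eq_zero.1 e1⟩
  obtain ⟨d0, hd0⟩ := dia (wA_mul hx.2 hy.2)
  have u1 : ⁅x, x * y⁆ = x := by rw [mul, h, lie_self]; simp
  have u2 : ⁅y, x * y⁆ = -y := by rw [mul, h', lie_self]; simp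
  have v1 : ⁅x, diagonal d0.1⁆ = x := by rw [← hd0, ← hR.equi x hx.1, u1, hR.left x hx.1]
  have v2 : ⁅y, diagonal d0.1⁆ = -y := by
    rw [← hd0, ← hR.equi y hy.1, u2, map_neg, hR.left y hy.1]
  have g0 : γ d0 = 1 := by
    rw [ld hy, neg_inj] at v2
    exact smul_left_injective k y0 (v2.trans (one_smul k y).symm)
  have span : ∀ J : Submodule k (Matrix n n k), 1 ∈ J → diagonal d0.1 ∈ J → x ∈ J → y ∈ J →
      ∀ z ∈ L, z ∈ J := fun J j1 j2 j3 j4 z hz => hR.le_of_wsp hD J (fun β w hw => by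
    by_cases w0 : w = 0
    · rw [w0]; exact J.zero_mem
    rcases one_weight hD hγ hx x0 s3 hw w0 with rfl | rfl
    · obtain ⟨d, rfl⟩ := hD.zero hw
      obtain ⟨c, hc⟩ := s3 (d - γ d • d0) (by rw [map_sub, map_smul, g0]; simp)
      rw [← sub_add_cancel d (γ d • d0), diagonal_coe_add, diagonal_coe_smul, hc]
      exact J.add_mem (J.smul_mem _ j1) (J.smul_mem _ j2)
    · obtain ⟨s, r, rfl⟩ := s5 w hw
      exact J.sub_mem (J.smul_mem _ j4) (J.smul_mem _ j3)) hz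
  obtain ⟨c, hc⟩ := hR.cent (z := x * y - diagonal d0.1) fun z hz => by
    have := span (LinearMap.ker (adm (x * y - diagonal d0.1))) (lie_one' _) (by
      rw [LinearMap.mem_ker, adm_apply, ← lie_skew, lie_sub, lie_self, wA_mul hx.2 hy.2 d0,
        wt_add_self]; simp) (by
      rw [LinearMap.mem_ker, adm_apply, ← lie_skew, lie_sub, u1, v1]; simp) (by
      rw [LinearMap.mem_ker, adm_apply, ← lie_skew, lie_sub, u2, v2]; simp) z hz
    rw [← lie_skew, show ⁅x * y - diagonal d0.1, z⁆ = 0 from this, neg_zero]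
  have e0 : diagonal d0.1 = x * y - c • 1 := by rw [← hc]; abel
  have um : x * y ∈ L := by
    rw [eq_add_of_sub_eq hc]
    exact L.add_mem (L.smul_mem _ one) (hD.mem _ d0.2)
  let S : Subalgebra k (Matrix n n k) :=
    { carrier := {a | ∀ l ∈ L, a * l ∈ L}
      mul_mem' := fun ha hb l hl => by rw [mul_assoc]; exact ha _ (hb l hl)
      add_mem' := fun ha hb l hl => by rw [add_mul]; exact L.add_mem (ha l hl) (hb l hl)
      algebraMap_mem' := fun r l hl => by rw [← Algebra.smul_def]; exact L.smul_mem r hl }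
  have mk : ∀ a ∈ L, a * (x * y) ∈ L → a * x ∈ L → a * y ∈ L → a ∈ S := fun a ha a1 a2 a3 =>
    span (L.toSubmodule.comap (LinearMap.mulLeft k a)) (by simpa using ha) (by
      change a * _ ∈ L
      rw [e0, mul_sub, mul_smul_comm, mul_one]
      exact L.sub_mem a1 (L.smul_mem _ ha)) a2 a3
  obtain ⟨a, ha⟩ := nx
  obtain ⟨b, hb⟩ := ny
  rw [pow_two] at ha hb
  have yx : y * x = x * y - 1 := by rw [← h, Ring.lie_def]; abel
  have xS := mk x hx.1 (by rw [← mul_assoc, ha, smul_mul_assoc, one_mul]; exact L.smul_mem _ hy.1)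
    (ha ▸ L.smul_mem _ one) um
  have yS := mk y hy.1 (by
    rw [← mul_assoc, yx, sub_mul, mul_assoc, hb, mul_smul_comm, mul_one, one_mul]
    exact L.sub_mem (L.smul_mem _ hx.1) hy.1) (yx ▸ L.sub_mem um one) (hb ▸ L.smul_mem _ one)
  have top : ⊤ ≤ S := hR.gen ▸ Algebra.adjoin_le (span S.toSubmodule S.one_mem
    (e0 ▸ S.sub_mem (S.mul_mem xS yS) (S.smul_mem S.one_mem c)) xS yS)
  exact eq_top_iff.2 fun z _ => by simpa using top (Algebra.mem_top (x := z)) 1 one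

/-- a Heisenberg pair forces the full matrix algebra of even size -/
theorem heis (hR : Rich L π) (hD : Diag L t) (h : ¬ NoH L t) : L = ⊤ ∧ 2 ∣ Fintype.card n := by
  unfold NoH at h
  push Not at h
  obtain ⟨γ, hγ, x, hx, y, hy, nx, ⟨b, hb⟩, c, hc, c0⟩ := h
  have h1 : ⁅x, c⁻¹ • y⁆ = 1 := by rw [lie_smul, hc, smul_smul, inv_mul_cancel₀ c0, one_smul]
  refine ⟨heis_aux hR hD hγ hx (Submodule.smul_mem _ _ hy) nx
    ⟨c⁻¹ ^ 2 * b, by rw [smul_pow, hb, smul_smul]⟩ h1, (CharP.cast_eq_zero_iff k 2 _).1 ?_⟩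
  have := congrArg Matrix.trace h1
  rw [Ring.lie_def, Matrix.trace_sub, Matrix.trace_mul_comm, sub_self, Matrix.trace_one] at this
  exact this.symm

end Pool.Agent.Lib.PRC2
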