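import Pool.Agent.Lib.PRC2.Api
import Pool.Agent.Lib.PRC.B_GLG
import Pool.Agent.Lib.PRC.B_N3A
import Pool.Agent.Lib.PRC.B_N3B

namespace Pool.Agent.Lib.PRC2

open Matrix Pool.Agent.Lib.MP_3a0263_al Pool.Agent.Lib.MP_3a0263_al.R Pool.Agent.Lib.MP_3a0263_al.Q
  Pool.Agent.Lib.PRC

attribute [local instance 100] LieRing.ofAssociativeRing

universe u

namespace M3

section gl

variable {k : Type u} [Field k] {n : Type} [Fintype n] [DecidableEq n]

theorem glg_top {N : ℕ} (M : LieSubalgebra k (Matrix (Fin (N + 1)) (Fin (N + 1)) k))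
    (h1 : ∀ i : Fin N, single i.castSucc i.succ (1 : k) ∈ M)
    (h2 : ∀ i : Fin N, single i.succ i.castSucc (1 : k) ∈ M) (h0 : single 0 0 (1 : k) ∈ M) :
    M = ⊤ := by
  have lt : ∀ i j : Fin (N + 1), i < j → single i j (1 : k) ∈ M ∧ single j i (1 : k) ∈ M := by
    intro i j hij
    obtain ⟨j, rfl⟩ := Fin.exists_succ_eq.2 (Fin.ne_zero_of_lt hij)
    have : i.val < j.val + 1 := hij
    exact GLG.off M h1 h2 (j.val - i.val) i j (by omega)
  have all : ∀ i j : Fin (N + 1), i ≠ j → single i j (1 : k) ∈ M := fun i j hij =>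
    (lt_or_gt_of_ne hij).elim (fun h => (lt i j h).1) fun h => (lt j i h).2
  refine eq_top_iff.2 fun a _ => ?_
  have := add_mem (GLG.red M all 0 a) (M.smul_mem a.trace h0)
  rwa [sub_add_cancel] at this

theorem spread3 (h3 : ∀ a b : n, ∃ c, c ≠ a ∧ c ≠ b) (J : LieIdeal k (Matrix n n k)) {i j x y : n}
    (hxy : x ≠ y) (h : single i j (1 : k) ∈ J) : single x y (1 : k) ∈ J := by
  have left : ∀ {s a b}, a ≠ b → single s b (1 : k) ∈ J → single a b (1 : k) ∈ J :=
    fun {s a b} hab hs => GLG.br1 (k := k) s hab ▸ J.lie_mem hs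
  have right : ∀ {s a b}, a ≠ b → single a s (1 : k) ∈ J → single a b (1 : k) ∈ J :=
    fun {s a b} hab hs => GLG.br1 (k := k) s hab ▸ lie_mem_left k _ J _ _ hs
  obtain ⟨l, h1, h2⟩ := h3 j y
  exact left hxy (right h2 (left h1 h))

theorem br4 {i j l : n} (h : i ≠ j) (h1 : l ≠ i) (h2 : l ≠ j) (a : Matrix n n k) :
    ⁅(single l l (1 : k) : Matrix n n k), ⁅(single l j (1 : k) : Matrix n n k),
      ⁅(single i j (1 : k) : Matrix n n k), a⁆⁆⁆ = (-a j i) • single l j 1 := by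
  have e1 : ∀ r s : n, (single r j (1 : k) : Matrix n n k) * a * (single s j (1 : k) : Matrix n n k)
      = a j s • single r j 1 := fun r s => by
    rw [single_mul_mul_single, smul_single]
    simp
  have e2 : ⁅(single l j (1 : k) : Matrix n n k), ⁅(single i j (1 : k) : Matrix n n k), a⁆⁆ =
      -(a j i • single l j 1) - a j l • single i j 1 := by
    rw [Ring.lie_def, Ring.lie_def, mul_sub, sub_mul, ← mul_assoc, ← mul_assoc,
      single_mul_single_of_ne _ _ _ _ h.symm, e1, e1, mul_assoc a,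
      single_mul_single_of_ne _ _ _ _ h2.symm, zero_mul, mul_zero]
    abel
  rw [e2, lie_sub, lie_neg, lie_smul, lie_smul, GLG.br1 l h2, Ring.lie_def,
    single_mul_single_of_ne _ _ _ _ h1, single_mul_single_of_ne _ _ _ _ h2.symm]
  simp

theorem scalar3 (h3 : ∀ a b : n, ∃ c, c ≠ a ∧ c ≠ b) (J : LieIdeal k (Matrix n n k)) {x y : n}
    (hxy : x ≠ y) (h : single x y (1 : k) ∉ J) (a : Matrix n n k) (ha : a ∈ J) :
    a = a x x • 1 := by
  have z : ∀ b ∈ J, ∀ i j, i ≠ j → b j i = 0 := by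
    intro b hb i j hij
    by_contra hne
    obtain ⟨l, h1, h2⟩ := h3 i j
    refine h (spread3 h3 J (i := l) (j := j) hxy (GLG.of_smul J (c := -b j i) (by simp [hne]) ?_))
    exact br4 hij h1 h2 b ▸ J.lie_mem (J.lie_mem (J.lie_mem hb))
  ext i j
  by_cases hij : i = j
  · subst hij
    by_cases hx : x = i
    · simp [hx]
    · have := z _ (J.lie_mem (x := single x i (1 : k)) ha) i x (Ne.symm hx)
      rw [Ring.lie_def, Matrix.sub_apply, single_mul_apply_same, mul_single_apply_same] at this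
      simpa [sub_eq_zero] using this
  · simp [z a ha j i (Ne.symm hij), hij]

theorem third (N : ℕ) (a b : Fin (N + 3)) : ∃ c, c ≠ a ∧ c ≠ b := by
  by_contra h
  push Not at h
  have h0 := h ⟨0, by omega⟩
  have h1 := h ⟨1, by omega⟩
  have h2 := h ⟨2, by omega⟩
  simp only [ne_eq, Fin.ext_iff] at h0 h1 h2
  omega

end gl

variable {k : Type u} [Field k] {n : Type} [Fintype n] [DecidableEq n]
  {L : LieSubalgebra k (Matrix n n k)} {Φ : Type u} [Fintype Φ]

theorem chev_L2 (R : X2 L Φ) {ι : Type} [DecidableEq ι] (v : ι → Φ)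
    (hv : Function.Injective v) (hm : ∀ i, v i ∈ R.Δ) :
    DG.Chev (fun i j => R.m (v i) (v j)) (R.xe v) (R.xf v) (R.xh v) := by
  refine ⟨fun i j => Subtype.ext (L0.diag_lie R.toCRoot _ _), fun i j => Subtype.ext ?_,
    fun i j => Subtype.ext ?_, fun i j => Subtype.ext ?_⟩
  · change ⁅diagonal (R.h (v i)).1, R.e (v j)⁆ = R.m (v i) (v j) • R.e (v j)
    rw [R.lie_e, R.wt_hh, Int.cast_smul_eq_zsmul]
  · change ⁅diagonal (R.h (v i)).1, R.e (R.neg (v j))⁆ = (- R.m (v i) (v j)) • R.e (R.neg (v j))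
    rw [R.lie_e, R.wt_hh, C1.m_neg, Int.cast_smul_eq_zsmul]
  · change ⁅R.e (v i), R.e (R.neg (v j))⁆ = _
    split_ifs with hij
    · subst hij; exact R.br_h _
    · have hij' : v i ≠ v j := fun e => hij (hv e)
      refine L0.br_zero R.toCRoot (fun e => hij' ?_) fun δ hδ => ?_
      · rw [← C1.neg_neg R.toComb (v j), e, C1.neg_neg]
      · have a1 := hδ _ (hm i)
        have a2 := hδ _ (hm j)
        rw [R.co_neg _ _ (hm i), R.self _ (hm i), R.ne _ (hm j) _ (hm i) hij'.symm] at a1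
        rw [R.co_neg _ _ (hm j), R.self _ (hm j), R.ne _ (hm i) _ (hm j) hij'] at a2
        rcases R.sign δ with g | g
        · have := g _ (hm j); omega
        · have := g _ (hm i); omega

/-- the positive part of the kernel of the second projection vanishes -/
theorem ker_zero2 (R : X2 L Φ) {ι : Type} [DecidableEq ι]
    (v : ι → Φ) (hm : ∀ i, v i ∈ R.Δ) {G : Type*} [LieRing G] [LieAlgebra k G] {A : ι → ι → ℤ}
    {E F H : ι → L × G} (c : DG.Chev A E F H) (hi : DG.Ind (LieHom.snd k L G) E F H)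
    (hE : ∀ i, (E i).1.1 = R.e (v i)) (hF : ∀ i, (F i).1.1 = R.e (R.neg (v i)))
    {x : L × G} (hx : x ∈ DG.Np k E) (h0 : x.2 = 0) : x = 0 := by
  let Q : Φ → Prop := fun β => C1.Pos R.toComb β ∧ ∀ j ∈ R.Δ, j ∉ Set.range v → R.co β j = 0
  let Nl := DG.Nil R.toCRoot Q (fun β γ hβ hγ h => C1.not_pos_neg R.toComb hβ.1 (h ▸ hγ.1))
    fun β γ δ hβ hγ h => ⟨fun i hi => by rw [h i hi]; exact add_nonneg (hβ.1 i hi) (hγ.1 i hi),
      fun j hj hn => by rw [h j hj, hβ.2 j hj hn, hγ.2 j hj hn, add_zero]⟩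
  have hN : ∀ x ∈ DG.Np k E, x.1 ∈ Nl := fun x hx =>
    DG.map_Np (LieHom.fst k L G) Nl (fun i => by
      change R.tp (E i).1.1 = 0 ∧ ∀ β, ¬ Q β → R.cf β (E i).1.1 = 0
      rw [hE]
      refine ⟨R.tp_e _, fun β hβ => R.cf_ne _ _ fun e => hβ ?_⟩
      rw [e]
      exact ⟨C1.pos_simple R.toComb (hm i), fun j hj hn =>
        R.ne _ (hm i) j hj fun e => hn ⟨i, e⟩⟩) hx
  have key : ∀ m : ℕ, ∀ x ∈ DG.Np k E, x.2 = 0 → ∀ β, C1.ht R.toComb β ≤ m →
      R.cf β x.1.1 = 0 := by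
    intro m
    induction m with
    | zero =>
      intro x hx _ β hβ
      refine (hN x hx).2 β fun hQ => ?_
      have := C1.ht_pos R.toComb hQ.1
      omega
    | succ m ih =>
      intro x hx h0 β hβ
      by_cases hQ : Q β
      swap
      · exact (hN x hx).2 β hQ
      obtain ⟨j, hj, hco, hmp⟩ := C1.exists_m_pos R.toComb hQ.1
      obtain ⟨i, rfl⟩ : j ∈ Set.range v := by
        by_contra hn
        have := hQ.2 j hj hn
        omega
      obtain ⟨z1, z2⟩ := c.ker_stab hi (DG.Np_le' (DG.mem_Np F i)) hx h0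
      have ez : (⁅F i, x⁆ : L × G).1.1 = ∑ γ, R.cf γ x.1.1 • ⁅R.e (R.neg (v i)), R.e γ⁆ := by
        change ⁅(F i).1.1, x.1.1⁆ = _
        rw [hF]
        conv_lhs => rw [R.decomp _ x.1.2, (hN x hx).1, L0.diag_zero R.toCRoot, zero_add]
        rw [lie_sum]
        simp only [lie_smul]
      by_cases hb : β = v i
      · have t0 : R.tp (⁅F i, x⁆ : L × G).1.1 = 0 := (hN _ z1).1
        rw [ez, map_sum, Finset.sum_eq_single β, map_smul, hb, ← lie_skew, R.br_h, map_neg,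
          R.tp_t, smul_eq_zero, neg_eq_zero] at t0
        · rw [hb]; exact t0.resolve_right (R.h_ne _)
        · intro γ _ hγ
          rw [map_smul, R.br_tp _ _ (by rw [C1.neg_neg, ← hb]; exact hγ), smul_zero]
        · simp
      · obtain ⟨δ, hδ⟩ := C1.sub_root R.toComb hmp hb
        have hs : L0.IsSum R.toComb (R.neg (v i)) β δ := fun a ha => by
          rw [hδ a ha, R.co_neg _ a ha]; ring
        have hh := C1.ht_comb R.toComb 1 (-1) (a := β) (b := v i) (c := δ) fun a ha => by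
          rw [hδ a ha]; ring
        rw [C1.ht_simple R.toComb hj] at hh
        have t0 := ih _ z1 z2 δ (by push_cast at hβ; omega)
        rw [ez, map_sum, Finset.sum_eq_single β, map_smul, smul_eq_mul, mul_eq_zero] at t0
        · refine t0.resolve_right fun h1 => R.br _ _ _ hs ?_
          rw [L0.br_sum R.toCRoot hs, h1, zero_smul]
        · intro γ _ hγ
          have : R.cf δ ⁅R.e (R.neg (v i)), R.e γ⁆ = 0 := by
            by_contra h1
            refine hγ (R.inj _ _ fun a ha => ?_)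
            have b1 := R.br_cf _ _ _ h1 a ha
            have b2 := hs a ha
            omega
          rw [map_smul, this, smul_zero]
        · simp
  exact Prod.ext (Subtype.ext (L0.eq_zero R.toCRoot x.1.2 (hN x hx).1 fun β =>
    key _ x hx h0 β (Int.self_le_toNat _))) h0

/-- roots on different sides commute -/
theorem br_side2 (R : X2 L Φ) (D : Set Φ)
    (hD : ∀ i ∈ R.Δ, ∀ j ∈ R.Δ, i ∈ D → j ∉ D → R.m i j = 0) {γ β : Φ}
    (hγ : ∀ j ∈ R.Δ, j ∉ D → R.co γ j = 0) (hβ : ∀ j ∈ R.Δ, j ∈ D → R.co β j = 0) :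
    ⁅R.e γ, R.e β⁆ = 0 := by
  obtain ⟨i, hi, h1⟩ := L0.co_ne R.toComb γ
  obtain ⟨j, hj, h2⟩ := L0.co_ne R.toComb β
  have hiD : i ∈ D := by_contra fun c => h1 (hγ i hi c)
  have hjD : j ∉ D := fun c => h2 (hβ j hj c)
  refine L0.br_zero R.toCRoot (fun e => h2 ?_) fun δ h => ?_
  · rw [e, R.co_neg _ j hj, hγ j hj hjD, neg_zero]
  · rcases C1.supp_side R.toComb D hD δ with h3 | h3
    · have := h j hj
      rw [h3 j hj hjD, hγ j hj hjD] at this
      omega
    · have := h i hi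
      rw [h3 i hi hiD, hβ i hi hiD] at this
      omega

open N3A in
theorem exists_gl_hom (R : X2 L Φ) (N : ℕ) (v : Fin (N + 1) → Φ) (T : TyA R.toComb (N + 1) v)
    (d : R.t) (hd0 : R.wt (v 0) d = 1) (hd : ∀ j ∈ R.Δ, j ≠ v 0 → R.wt j d = 0) :
    ∃ φ : Matrix (Fin (N + 2)) (Fin (N + 2)) k →ₗ⁅k⁆ Matrix n n k,
      (∀ i : Fin (N + 1), φ (single i.castSucc i.succ 1) = R.e (v i)) ∧
      (∀ i : Fin (N + 1), φ (single i.succ i.castSucc 1) = R.e (R.neg (v i))) ∧
      φ (single 0 0 1) = diagonal d.1 := by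
  have c1 := chev_L2 R v T.inj T.mem
  simp only [T.car] at c1
  have C := c1.prod (chev_gl k (N + 1))
  set E : Fin (N + 1) → L × Matrix (Fin (N + 2)) (Fin (N + 2)) k :=
    fun i => (R.xe v i, Eg k (N + 1) i) with hE
  set F : Fin (N + 1) → L × Matrix (Fin (N + 2)) (Fin (N + 2)) k :=
    fun i => (R.xf v i, Fg k (N + 1) i) with hF
  let π := LieHom.snd k L (Matrix (Fin (N + 2)) (Fin (N + 2)) k)
  have hi := ind_gl π (E := E) (F := F) (H := fun i => (R.xh v i, Hg k (N + 1) i))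
    (fun _ => rfl) (fun _ => rfl) fun _ => rfl
  let w : L × Matrix (Fin (N + 2)) (Fin (N + 2)) k := (⟨diagonal d.1, R.t_mem d⟩, single 0 0 1)
  have hwt : ∀ i, R.wt (v i) d = if i = 0 then 1 else 0 := fun i => by
    split_ifs with h
    · rw [h, hd0]
    · exact hd _ (T.mem i) fun e => h (T.inj e)
  have hw : ∀ x ∈ DG.Dd k E F, ⁅w, x⁆ ∈ DG.Dd k E F := by
    refine norm_span _ w ?_
    rintro _ (⟨i, rfl⟩ | ⟨i, rfl⟩)
    · refine ⟨R.wt (v i) d, Prod.ext (Subtype.ext (R.lie_e d _)) ?_⟩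
      change ⁅(single 0 0 1 : Matrix _ _ k), Eg k (N + 1) i⁆ = R.wt (v i) d • Eg k (N + 1) i
      rw [Eg, lie_ss, hwt, if_neg (Fin.succ_ne_zero i).symm, ← Int.cast_smul_eq_zsmul k]
      simp [eq_comm]
    · refine ⟨R.wt (R.neg (v i)) d, Prod.ext (Subtype.ext (R.lie_e d _)) ?_⟩
      change ⁅(single 0 0 1 : Matrix _ _ k), Fg k (N + 1) i⁆ =
        R.wt (R.neg (v i)) d • Fg k (N + 1) i
      rw [Fg, lie_ss, L0.wt_neg R.toCRoot, hwt, if_neg (Fin.succ_ne_zero i).symm,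
        ← Int.cast_smul_eq_zsmul k]
      simp [eq_comm]
  let D := Ext (DG.Dd k E F) w hw
  have hD : ∀ x ∈ DG.Dd k E F, x ∈ D := fun x hx => ⟨x, hx, 0, by simp⟩
  have hwD : w ∈ D := ⟨0, LieSubalgebra.zero_mem _, 1, by simp⟩
  have htr : ∀ x ∈ DG.Dd k E F, x.2.trace = 0 := fun x hx => by
    have : DG.Dd k E F ≤ (LieAlgebra.SpecialLinear.sl _ k).comap π :=
      LieSubalgebra.lieSpan_le.2 (by
        rintro _ (⟨i, rfl⟩ | ⟨i, rfl⟩)
        · exact trace_single_eq_of_ne _ _ _ Fin.castSucc_lt_succ.ne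
        · exact trace_single_eq_of_ne _ _ _ Fin.castSucc_lt_succ.ne')
    exact this hx
  have hb : Function.Bijective (π.comp D.incl) := by
    constructor
    · refine (injective_iff_map_eq_zero _).2 ?_
      rintro ⟨_, x, hx, c, rfl⟩ h0
      have h1 : x.2 + c • single 0 0 1 = 0 := h0
      have h3 := congrArg trace h1
      rw [trace_add, htr x hx, trace_smul, trace_single_eq_same, trace_zero, zero_add,
        smul_eq_mul, mul_one] at h3
      rw [h3, zero_smul, add_zero] at h1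
      obtain ⟨a, ha, y, hy, b, hb, e1⟩ := DG.mem_Tri.1 (C.Dd_Tri hx)
      obtain ⟨g1, g2, g3⟩ := hi a ha y hy b hb (by rw [← e1]; exact h1)
      refine Subtype.ext ?_
      change x + c • w = 0
      rw [h3, e1, g2, ker_zero2 R v T.mem C hi (fun _ => rfl) (fun _ => rfl) ha g1,
        ker_zero2 R.opp v T.mem C.symm hi.symm (fun _ => rfl)
          (fun i => congrArg R.e (C1.neg_neg R.toComb _).symm) hb g3]
      simp
    · intro a
      have := glg_top (D.map π)
        (fun i => ⟨E i, hD _ (DG.Np_le (DG.mem_Np E i)), rfl⟩)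
        (fun i => ⟨F i, hD _ (DG.Np_le' (DG.mem_Np F i)), rfl⟩) ⟨w, hwD, rfl⟩
      obtain ⟨z, hz, rfl⟩ : a ∈ D.map π := this ▸ LieSubalgebra.mem_top a
      exact ⟨⟨z, hz⟩, rfl⟩
  let ψ := LieEquiv.ofBijective _ hb
  have hψ : ∀ z (hz : z ∈ D), ψ.symm z.2 = ⟨z, hz⟩ := fun z hz =>
    ψ.symm_apply_apply ⟨z, hz⟩
  refine ⟨(L.incl.comp ((LieHom.fst k L _).comp D.incl)).comp ψ.symm.toLieHom,
    fun i => ?_, fun i => ?_, ?_⟩
  · exact congrArg (fun z : D => z.1.1.1) (hψ (E i) (hD _ (DG.Np_le (DG.mem_Np E i))))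
  · exact congrArg (fun z : D => z.1.1.1) (hψ (F i) (hD _ (DG.Np_le' (DG.mem_Np F i))))
  · exact congrArg (fun z : D => z.1.1.1) (hψ w hwD)

open N3B in
theorem glIn (R : X2 L Φ) (N : ℕ) (v : Fin (N + 2) → Φ) (T : TyA R.toComb (N + 2) v)
    (d : R.t) (d1 : ∀ j ∈ R.Δ, j ≠ v 0 → R.wt j d = 0)
    (φ : Matrix (Fin (N + 3)) (Fin (N + 3)) k →ₗ⁅k⁆ Matrix n n k)
    (he : ∀ i : Fin (N + 2), φ (single i.castSucc i.succ 1) = R.e (v i))
    (hf : ∀ i : Fin (N + 2), φ (single i.succ i.castSucc 1) = R.e (R.neg (v i)))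
    (hd : φ (single 0 0 1) = diagonal d.1) : GlIn L φ := by
  have top : ∀ M : LieSubalgebra k (Matrix (Fin (N + 3)) (Fin (N + 3)) k),
      (∀ i : Fin (N + 2), single i.castSucc i.succ (1 : k) ∈ M) →
      (∀ i : Fin (N + 2), single i.succ i.castSucc (1 : k) ∈ M) → single 0 0 (1 : k) ∈ M →
      ∀ a, a ∈ M := fun M h1 h2 h3 a => by
    rw [glg_top M h1 h2 h3]
    trivial
  have mem : ∀ a, φ a ∈ L := top (L.comap φ)
    (fun i => show φ _ ∈ L from he i ▸ R.e_mem _) (fun i => show φ _ ∈ L from hf i ▸ R.e_mem _)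
    (show φ _ ∈ L from hd ▸ R.t_mem d)
  have com : ∀ c : Matrix n n k, (∀ i, ⁅R.e (v i), c⁆ = 0) →
      (∀ i, ⁅R.e (R.neg (v i)), c⁆ = 0) →
      ⁅diagonal d.1, c⁆ = 0 → ∀ b, ⁅φ b, c⁆ = 0 := fun c h1 h2 h3 => top (cm φ c)
    (fun i => show ⁅φ _, c⁆ = 0 from he i ▸ h1 i) (fun i => show ⁅φ _, c⁆ = 0 from hf i ▸ h2 i)
    (show ⁅φ _, c⁆ = 0 from hd ▸ h3)
  have hD : ∀ i ∈ R.Δ, ∀ j ∈ R.Δ, i ∈ Set.range v → j ∉ Set.range v → R.m i j = 0 := by
    rintro _ - j hj ⟨i, rfl⟩ h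
    exact T.out j hj h i
  have hv : ∀ i, ∀ j ∈ R.Δ, j ∉ Set.range v → R.co (v i) j = 0 := fun i j hj h =>
    R.ne _ (T.mem i) j hj fun e => h ⟨i, e⟩
  have hE : ∀ β, R.e β ∈ sp L φ := fun β => by
    rcases C1.supp_side R.toComb (Set.range v) hD β with h | h
    · have : R.e β ∈ φ.range := by
        rcases C1.pos_or R.toComb β with h' | h'
        · refine R.gen' (Set.range v) φ.range ?_ β h' h
          rintro _ - ⟨i, rfl⟩
          exact ⟨_, he i⟩
        · have := R.opp.gen' (Set.range v) φ.range (by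
            rintro _ - ⟨i, rfl⟩
            exact ⟨_, hf i⟩) (R.neg β) h' fun j hj c => by
              have := R.co_neg β j hj
              rw [h j hj c, neg_zero] at this
              exact this
          rwa [X2.opp_e, C1.neg_neg R.toComb] at this
      obtain ⟨a, ha⟩ := this
      exact ⟨a, 0, L.zero_mem, by rw [add_zero]; exact ha.symm, fun b => lie_zero _⟩
    · refine ⟨0, R.e β, R.e_mem β, by simp, com _ (fun i => br_side2 R _ hD (hv i) h)
        (fun i => br_side2 R _ hD (fun j hj c => by rw [R.co_neg _ j hj, hv i j hj c, neg_zero]) h) ?_⟩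
      rw [R.lie_e, R.wt_lin, Finset.sum_eq_zero, zero_smul]
      intro j hj
      by_cases c : j = v 0
      · rw [h j hj ⟨0, c.symm⟩, Int.cast_zero, zero_mul]
      · rw [d1 j hj c, mul_zero]
  have hT : ∀ d' : R.t, diagonal d'.1 ∈ sp L φ := fun d' => by
    let a : Fin (N + 3) → k :=
      Fin.induction (motive := fun _ => k) 0 fun i x => x - R.wt (v i) d'
    have ha : ∀ i : Fin (N + 2), a i.castSucc - a i.succ = R.wt (v i) d' := fun i => by
      simp only [a, Fin.induction_succ]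
      ring
    refine ⟨diagonal a, diagonal d'.1 - φ (diagonal a), L.sub_mem (R.t_mem d') (mem _), by abel,
      com _ (fun i => ?_) (fun i => ?_) ?_⟩
    · rw [← lie_skew, sub_lie, R.lie_e, ← he, ← LieHom.map_lie, lie_single, map_smul, ha, sub_self,
        neg_zero]
    · rw [← lie_skew, sub_lie, R.lie_e, ← hf, ← LieHom.map_lie, lie_single, map_smul,
        L0.wt_neg R.toCRoot, ← ha, neg_sub (a i.castSucc), sub_self, neg_zero]
    · rw [lie_sub, L0.diag_lie R.toCRoot, ← hd, ← LieHom.map_lie, ← lie_skew, lie_single, sub_self,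
        zero_smul, neg_zero, map_zero, sub_zero]
  refine ⟨mem, fun a h => ⟨_, scalar3 (third N) φ.ker (x := 0) (y := 1) (by simp) (fun c => ?_) a
    (LieHom.mem_ker.2 h)⟩, fun x hx => ?_⟩
  · exact L0.e_ne R.toCRoot (v 0) ((he 0).symm.trans (LieHom.mem_ker.1 c))
  · have : x ∈ sp L φ := by
      rw [R.decomp x hx]
      exact Submodule.add_mem _ (hT _) (Submodule.sum_mem _ fun β _ => Submodule.smul_mem _ _ (hE β))
    exact this

end M3

/-- a component of type `A` gives a copy of `gl` -/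
theorem X2.exists_gl {k : Type u} [Field k] {n : Type} [Fintype n] [DecidableEq n]
    {L : LieSubalgebra k (Matrix n n k)} {Φ : Type u} [Fintype Φ] (R : X2 L Φ) {N : ℕ}
    {v : Fin (N + 2) → Φ} (T : TyA R.toComb (N + 2) v) :
    ∃ φ : Matrix (Fin (N + 3)) (Fin (N + 3)) k →ₗ⁅k⁆ Matrix n n k, GlIn L φ := by
  obtain ⟨d, d1, d2⟩ := R.cow (v 0) (T.mem 0)
  obtain ⟨φ, f1, f2, f3⟩ := M3.exists_gl_hom R (N + 1) v T d d1 d2
  exact ⟨φ, M3.glIn R N v T d d2 φ f1 f2 f3⟩

end Pool.Agent.Lib.PRC2
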