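import Pool.Agent.Lib.MP_3a0263_al.R.Final
import Pool.Agent.Lib.MP_3a0263_al.R.B_BASE
import Pool.Agent.Lib.MP_3a0263_al.R.B_DIAG
import Pool.Agent.Lib.MP_3a0263_al.R.B_EIG
import Pool.Agent.Lib.MP_3a0263_al.R.B_FAM
import Pool.Agent.Lib.MP_3a0263_al.R.B_GOOD
import Pool.Agent.Lib.MP_3a0263_al.R.B_GRP
import Pool.Agent.Lib.MP_3a0263_al.R.B_JM
import Pool.Agent.Lib.MP_3a0263_al.R.B_KOL
import Pool.Agent.Lib.MP_3a0263_al.R.B_MOD1
import Pool.Agent.Lib.MP_3a0263_al.R.B_MOD2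
import Pool.Agent.Lib.MP_3a0263_al.R.B_NIL
import Pool.Agent.Lib.MP_3a0263_al.R.B_ODD1
import Pool.Agent.Lib.MP_3a0263_al.R.B_ODD2
import Pool.Agent.Lib.MP_3a0263_al.R.B_ODD3
import Pool.Agent.Lib.MP_3a0263_al.R.B_P3
import Pool.Agent.Lib.MP_3a0263_al.R.B_REFL
import Pool.Agent.Lib.MP_3a0263_al.R.B_SETUP
import Pool.Agent.Lib.MP_3a0263_al.R.B_SL2
import Pool.Agent.Lib.MP_3a0263_al.R.B_SL3
import Pool.Agent.Lib.MP_3a0263_al.R.B_THETA
import Pool.Agent.Lib.MP_3a0263_al.R.B_TOR1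
import Pool.Agent.Lib.MP_3a0263_al.R.B_TOR2
import Pool.Agent.Lib.MP_3a0263_al.R.B_TWO1
import Pool.Agent.Lib.MP_3a0263_al.R.B_TWO2
import Pool.Agent.Lib.MP_3a0263_al.R.B_ZAR
import Pool.Agent.Lib.MP_3a0263_al.Q.ClassC
import Pool.Agent.Lib.MP_3a0263_al.Q.Conv
import Pool.Agent.Lib.MP_3a0263_al.Q.GFinal
import Pool.Agent.Lib.MP_3a0263_al.Q.TraceFinal

namespace Pool.Agent.Lib.PRC2.SimpleIff

open Pool.Agent.Lib.MP_3a0263_al Pool.Agent.Lib.MP_3a0263_al.R Pool.Agent.Lib.MP_3a0263_al.Q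

universe u

theorem simple_iff (k : Type u) [Field k] [IsAlgClosed k] (p : ℕ) [Fact p.Prime] [CharP k p]
    (g : Type u) [LieRing g] [LieAlgebra k g] (hs : LieAlgebra.IsSimple k g) :
    HasRichardson k g ↔ InClassC k p g :=
  have he := st_eig k p (st_p3 k p)
  ⟨fun h => ⟨concl_of_richardson
      ⟨st_setup k, st_diag k p, st_odd1 k p he (st_jm k), st_odd2 k p, st_odd3 k p,
        st_two1 k p he, st_two2 k p, st_refl k p, st_base k, st_nil k p, st_sl2 k p, st_sl3 k p,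
        R.st_theta k p (st_fam k), st_good k p, st_mod1 k, st_mod2 k p,
        st_grp k p (st_zar k) (st_kol k), st_tor1 k p (st_zar k), st_tor2 k p⟩ g h (Or.inr hs),
      not_psl g h (Or.inr hs)⟩,
    fun ⟨⟨_, _, _, _, r, h1, h2, h3, h4, _⟩, _⟩ =>
      rich_of_lie (st_group k p) (st_trace k p) hs r h1 h2 h3 h4⟩

end Pool.Agent.Lib.PRC2.SimpleIff
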